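import Pool.Agent.G3.CvA
import Pool.Agent.H36.BP.MaxP
import Pool.Agent.H36.BP.SubA
import Pool.Agent.H36.BP.SubC
import Pool.Agent.AD.F.PotA

/-!
# G4 M AhlK: the key inequality of the Ahlfors lemma from the mean value inequalities

At a local maximum `ζ` of `q T ^ m` (`q` satisfies Jensen's inequality, `T` has a lower support with the exponent `- τ`): `fs^2/2 ≤ C ‖h'‖^2 + m τ`.  Take means over small circles: `avg_low` for `V = ‖F‖ T ^ m`
(`Sub.norm_rpow`, `Sub.rpow`, `Sub.mul`).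
-/

set_option autoImplicit false

open Topology Filter Metric

namespace Pool.Agent.G4.M

open Pool.Agent.H36.BP (EN fs wd Sub)
open Pool.Agent.AD (Vd)
open Pool.Agent.G3 (TT)

variable {N k : ℕ}

/-- the mean value inequality for `log ‖a‖` -/
theorem log_norm_le_cA {a : ℂ → ℂ} {z : ℂ} {s : ℝ} (hs : 0 < s) (ha : AnalyticOnNhd ℂ a (closedBall z s)) (ha0 : a z ≠ 0) :
    Real.log ‖a z‖ ≤ Real.circleAverage (fun w => Real.log ‖a w‖) z s := by
  have har : |s| = s := abs_of_pos hs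
  have hana : AnalyticOnNhd ℂ a (closedBall z |s|) := by rwa [har]
  rw [AnalyticOnNhd.circleAverage_log_norm hs.ne' hana ha0]
  have h1 : 0 ≤ ∑ᶠ u, (MeromorphicOn.divisor a (closedBall z |s|) u : ℝ) * Real.log (s * ‖z - u‖⁻¹) := by
    apply finsum_nonneg
    intro u
    by_cases hu : u ∈ closedBall z |s|
    · apply mul_nonneg
      · have := MeromorphicOn.AnalyticOnNhd.divisor_nonneg hana u
        exact_mod_cast this
      · by_cases huc : u = z
        · simp [huc]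
        · apply Real.log_nonneg
          have h2 : 0 < ‖z - u‖ := by
            rw [norm_pos_iff, sub_ne_zero]
            exact fun h => huc h.symm
          have h3 : ‖z - u‖ ≤ s := by
            rw [mem_closedBall, dist_eq_norm, abs_of_pos hs, norm_sub_rev] at hu
            exact hu
          rw [← div_eq_mul_inv, le_div_iff₀ h2]
          linarith
    · have : MeromorphicOn.divisor a (closedBall z |s|) u = 0 := Function.locallyFinsuppWithin.apply_eq_zero_of_notMem _ hu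
      simp [this]
  linarith

/-- the means of `log V` over small circles -/
theorem avg_low {V : ℂ → ℝ} {ζ : ℂ} {c c' : ℝ} (hV : Sub V ζ c) (hc : c' < c) (hVc : ∀ᶠ w in 𝓝 ζ, ContinuousAt V w) :
    ∀ᶠ s in 𝓝[>] (0 : ℝ), CircleIntegrable (fun w => Real.log (V w)) ζ s ∧ Real.log (V ζ) + c' * s ^ 2 ≤ Real.circleAverage (fun w => Real.log (V w)) ζ s := by
  obtain ⟨hV0, hV1⟩ := hV
  obtain ⟨g, hg, hg0, hge⟩ := hV1 c' hc
  have hgne : g ζ ≠ 0 := by
    intro h
    rw [h, norm_zero] at hg0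
    exact hV0.ne hg0
  have hVpos : ∀ᶠ w in 𝓝 ζ, 0 < V w := hVc.self_of_nhds.eventually_const_lt hV0
  obtain ⟨ρ, hρ, hball⟩ := Metric.eventually_nhds_iff_ball.1
    (((hg.eventually_analyticAt.and (hg.continuousAt.eventually_ne hgne)).and (hge.and hVc)).and hVpos)
  have hsm : ∀ᶠ s in 𝓝[>] (0 : ℝ), s < ρ := nhdsWithin_le_nhds (Iio_mem_nhds hρ)
  filter_upwards [hsm, self_mem_nhdsWithin] with s hs hs0
  have hs0 : 0 < s := hs0
  have har : |s| = s := abs_of_pos hs0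
  have hin : closedBall ζ s ⊆ ball ζ ρ := closedBall_subset_ball hs
  have hsp : sphere ζ s ⊆ ball ζ ρ := sphere_subset_closedBall.trans hin
  have hlV : ContinuousOn (fun w => Real.log (V w)) (sphere ζ s) := fun w hw =>
    (((hball w (hsp hw)).1.2.2).log (hball w (hsp hw)).2.ne').continuousWithinAt
  have hlg : ContinuousOn (fun w => Real.log ‖g w‖) (sphere ζ s) := fun w hw =>
    (((hball w (hsp hw)).1.1.1.continuousAt.norm).log (norm_ne_zero_iff.2 (hball w (hsp hw)).1.1.2)).continuousWithinAt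
  have hIV := hlV.circleIntegrable hs0.le
  have hIg := hlg.circleIntegrable hs0.le
  refine ⟨hIV, ?_⟩
  have h1 := log_norm_le_cA hs0 (fun w hw => (hball w (hin hw)).1.1.1) hgne
  have h2 : Real.circleAverage (fun w => Real.log ‖g w‖ + c' * s ^ 2) ζ s ≤ Real.circleAverage (fun w => Real.log (V w)) ζ s := by
    refine Real.circleAverage_mono (hIg.fun_add (circleIntegrable_const _ _ _)) hIV fun w hw => ?_
    rw [har] at hw
    have hw' := hball w (hsp hw)
    have hd : ‖w - ζ‖ = s := by rw [← dist_eq_norm]; exact hw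
    have h3 := hw'.1.2.1
    rw [hd] at h3
    have h4 : Real.log (‖g w‖ * Real.exp (c' * s ^ 2)) ≤ Real.log (V w) :=
      Real.log_le_log (mul_pos (norm_pos_iff.2 hw'.1.1.2) (Real.exp_pos _)) h3
    rwa [Real.log_mul (norm_ne_zero_iff.2 hw'.1.1.2) (Real.exp_pos _).ne', Real.log_exp] at h4
  rw [Real.circleAverage_fun_add hIg (circleIntegrable_const _ _ _), Real.circleAverage_const] at h2
  rw [hg0] at h1
  linarith

/-- the means of `‖h - h ζ‖ ^ 2` over small circles -/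
theorem avg_sq_le {h : ℂ → Vd (k + 1)} {ζ : ℂ} (hh : AnalyticAt ℂ h ζ) {η : ℝ} (hη : 0 < η) :
    ∀ᶠ s in 𝓝[>] (0 : ℝ), Real.circleAverage (fun w => ‖h w - h ζ‖ ^ 2) ζ s ≤ (‖deriv h ζ‖ + η) ^ 2 * s ^ 2 := by
  have h1 : ∀ᶠ w in 𝓝 ζ, ‖h w - h ζ - (w - ζ) • deriv h ζ‖ ≤ η * ‖w - ζ‖ := by
    have h2 := hh.differentiableAt.hasDerivAt.isLittleO
    exact h2.def hη
  obtain ⟨ρ, hρ, hball⟩ := Metric.eventually_nhds_iff_ball.1 (h1.and hh.eventually_analyticAt)
  have hsm : ∀ᶠ s in 𝓝[>] (0 : ℝ), s < ρ := nhdsWithin_le_nhds (Iio_mem_nhds hρ)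
  filter_upwards [hsm, self_mem_nhdsWithin] with s hs hs0
  have hs0 : 0 < s := hs0
  have har : |s| = s := abs_of_pos hs0
  have hsp : sphere ζ s ⊆ ball ζ ρ := sphere_subset_closedBall.trans (closedBall_subset_ball hs)
  have hI : CircleIntegrable (fun w => ‖h w - h ζ‖ ^ 2) ζ s := by
    refine ContinuousOn.circleIntegrable hs0.le fun w hw => ?_
    exact (((hball w (hsp hw)).2.continuousAt.sub continuousAt_const).norm.pow 2).continuousWithinAt
  refine Real.circleAverage_mono_on_of_le_circle hI fun w hw => ?_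
  rw [har] at hw
  have hd : ‖w - ζ‖ = s := by rw [← dist_eq_norm]; exact hw
  have h3 := (hball w (hsp hw)).1
  have h4 : ‖h w - h ζ‖ ≤ (‖deriv h ζ‖ + η) * s := by
    have h5 : h w - h ζ = (h w - h ζ - (w - ζ) • deriv h ζ) + (w - ζ) • deriv h ζ := by abel
    rw [h5]
    refine (norm_add_le _ _).trans ?_
    rw [norm_smul, hd]
    rw [hd] at h3
    linarith
  calc ‖h w - h ζ‖ ^ 2 ≤ ((‖deriv h ζ‖ + η) * s) ^ 2 := pow_le_pow_left₀ (norm_nonneg _) h4 2
    _ = (‖deriv h ζ‖ + η) ^ 2 * s ^ 2 := by ring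

/-- the key inequality -/
theorem key {q T : ℂ → ℝ} {F : ℂ → EN N} {h : ℂ → Vd (k + 1)} {ζ : ℂ} {m : ℕ} {C τ : ℝ} (hC : 0 ≤ C) (hF : AnalyticAt ℂ F ζ) (hF0 : F ζ ≠ 0) (hh : AnalyticAt ℂ h ζ)
    (hq0 : 0 < q ζ) (hqc : ∀ᶠ w in 𝓝 ζ, ContinuousAt q w) (hT : Sub T ζ (-τ)) (hTc : ∀ᶠ w in 𝓝 ζ, ContinuousAt T w)
    (hmax : ∀ᶠ w in 𝓝 ζ, q w * T w ^ m ≤ q ζ * T ζ ^ m)
    (hJ : ∀ᶠ s in 𝓝[>] (0 : ℝ), CircleIntegrable (fun w => Real.log (q w)) ζ s ∧
      Real.log (q ζ) + TT F ζ s ≤ Real.circleAverage (fun w => Real.log (q w)) ζ s + C * Real.circleAverage (fun w => ‖h w - h ζ‖ ^ 2) ζ s) :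
    fs (F ζ) (deriv F ζ) ^ 2 / 2 - C * ‖deriv h ζ‖ ^ 2 + (m : ℝ) * -τ ≤ 0 := by
  by_contra hcon
  push Not at hcon
  have hT0 : 0 < T ζ := hT.1
  have hFc : ∀ᶠ w in 𝓝 ζ, ContinuousAt F w ∧ F w ≠ 0 :=
    (hF.eventually_analyticAt.mono fun w hw => hw.continuousAt).and (hF.continuousAt.eventually_ne hF0)
  -- the function `V`
  have hVS : Sub (fun w => ‖F w‖ * T w ^ m) ζ (fs (F ζ) (deriv F ζ) ^ 2 / 2 + (m : ℝ) * -τ) := by
    have h1 := Sub.norm_rpow hF hF0 1
    have h2 := h1.mul (hT.rpow (r := (m : ℝ)) (by positivity))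
    refine (h2.anti (by linarith)).congr (Eventually.of_forall fun w => ?_)
    rw [Real.rpow_one, Real.rpow_natCast]
  have hVc : ∀ᶠ w in 𝓝 ζ, ContinuousAt (fun w => ‖F w‖ * T w ^ m) w := by
    filter_upwards [hFc, hTc] with w h1 h2
    exact h1.1.norm.mul (h2.pow m)
  obtain ⟨c', hc'1, hc'2⟩ := exists_between (show C * ‖deriv h ζ‖ ^ 2 < fs (F ζ) (deriv F ζ) ^ 2 / 2 + (m : ℝ) * -τ by linarith)
  obtain ⟨η, hη, hη'⟩ : ∃ η : ℝ, 0 < η ∧ C * (‖deriv h ζ‖ + η) ^ 2 < c' := by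
    have h1 : Tendsto (fun η : ℝ => C * (‖deriv h ζ‖ + η) ^ 2) (𝓝[>] 0) (𝓝 (C * (‖deriv h ζ‖ + 0) ^ 2)) := by
      have h2 : Continuous fun η : ℝ => C * (‖deriv h ζ‖ + η) ^ 2 := by fun_prop
      exact (h2.tendsto 0).mono_left nhdsWithin_le_nhds
    rw [add_zero] at h1
    obtain ⟨η, h3, h4⟩ := ((h1.eventually_lt_const hc'1).and self_mem_nhdsWithin).exists
    exact ⟨η, h4, h3⟩
  have hqpos : ∀ᶠ w in 𝓝 ζ, 0 < q w := hqc.self_of_nhds.eventually_const_lt hq0
  have hTpos : ∀ᶠ w in 𝓝 ζ, 0 < T w := hTc.self_of_nhds.eventually_const_lt hT0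
  obtain ⟨ρ, hρ, hball⟩ := Metric.eventually_nhds_iff_ball.1 (((hmax.and hqpos).and (hTpos.and hTc)).and hFc)
  have hsm : ∀ᶠ s in 𝓝[>] (0 : ℝ), s < ρ := nhdsWithin_le_nhds (Iio_mem_nhds hρ)
  obtain ⟨s, hs1, hs2, hs3, hs4, hs5⟩ := (avg_low hVS hc'2 hVc).and ((avg_sq_le hh hη).and (hJ.and (hsm.and self_mem_nhdsWithin))) |>.exists
  have hs0 : 0 < s := hs5
  have har : |s| = s := abs_of_pos hs0
  have hsp : sphere ζ s ⊆ ball ζ ρ := sphere_subset_closedBall.trans (closedBall_subset_ball hs4)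
  have hT1 : ContinuousOn (fun w => Real.log (T w)) (sphere ζ s) := fun w hw =>
    (((hball w (hsp hw)).1.2.2).log (hball w (hsp hw)).1.2.1.ne').continuousWithinAt
  have hF1 : ContinuousOn (fun w => Real.log ‖F w‖) (sphere ζ s) := fun w hw =>
    (((hball w (hsp hw)).2.1.norm).log (norm_ne_zero_iff.2 (hball w (hsp hw)).2.2)).continuousWithinAt
  have hIT := hT1.circleIntegrable hs0.le
  have hIF := hF1.circleIntegrable hs0.le
  have hImT : CircleIntegrable (fun w => (m : ℝ) • Real.log (T w)) ζ s := hIT.const_fun_smul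
  -- the mean of `log q`
  have h1 : Real.circleAverage (fun w => Real.log (q w)) ζ s ≤ Real.log (q ζ) + m * Real.log (T ζ) - m * Real.circleAverage (fun w => Real.log (T w)) ζ s := by
    have h2 : Real.circleAverage (fun w => Real.log (q w)) ζ s ≤
        Real.circleAverage (fun w => (Real.log (q ζ) + m * Real.log (T ζ)) - (m : ℝ) • Real.log (T w)) ζ s := by
      refine Real.circleAverage_mono hs3.1 ((circleIntegrable_const _ _ _).fun_sub hImT) fun w hw => ?_
      rw [har] at hw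
      have hw' := hball w (hsp hw)
      have h3 : Real.log (q w * T w ^ m) ≤ Real.log (q ζ * T ζ ^ m) :=
        Real.log_le_log (mul_pos hw'.1.1.2 (pow_pos hw'.1.2.1 m)) hw'.1.1.1
      rw [Real.log_mul hw'.1.1.2.ne' (pow_pos hw'.1.2.1 m).ne', Real.log_mul hq0.ne' (pow_pos hT0 m).ne', Real.log_pow, Real.log_pow] at h3
      rw [smul_eq_mul]
      linarith
    rw [Real.circleAverage_fun_sub (circleIntegrable_const _ _ _) hImT, Real.circleAverage_const, Real.circleAverage_fun_smul, smul_eq_mul] at h2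
    exact h2
  -- the mean of `log V`
  have h4 : Real.circleAverage (fun w => Real.log (‖F w‖ * T w ^ m)) ζ s =
      Real.circleAverage (fun w => Real.log ‖F w‖) ζ s + m * Real.circleAverage (fun w => Real.log (T w)) ζ s := by
    have h5 : Real.circleAverage (fun w => Real.log (‖F w‖ * T w ^ m)) ζ s = Real.circleAverage (fun w => Real.log ‖F w‖ + (m : ℝ) • Real.log (T w)) ζ s := by
      refine Real.circleAverage_congr_sphere fun w hw => ?_
      rw [har] at hw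
      have hw' := hball w (hsp hw)
      show Real.log (‖F w‖ * T w ^ m) = Real.log ‖F w‖ + (m : ℝ) • Real.log (T w)
      rw [Real.log_mul (norm_ne_zero_iff.2 hw'.2.2) (pow_pos hw'.1.2.1 m).ne', Real.log_pow, smul_eq_mul]
    rw [h5, Real.circleAverage_fun_add hIF hImT, Real.circleAverage_fun_smul, smul_eq_mul]
  have h6 := hs1.2
  rw [h4, Real.log_mul (norm_ne_zero_iff.2 hF0) (pow_pos hT0 m).ne', Real.log_pow] at h6
  have h7 := hs3.2
  rw [TT] at h7
  have h8 : C * Real.circleAverage (fun w => ‖h w - h ζ‖ ^ 2) ζ s ≤ C * ((‖deriv h ζ‖ + η) ^ 2 * s ^ 2) := mul_le_mul_of_nonneg_left hs2 hC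
  have h9 : c' * s ^ 2 ≤ C * (‖deriv h ζ‖ + η) ^ 2 * s ^ 2 := by
    have : C * ((‖deriv h ζ‖ + η) ^ 2 * s ^ 2) = C * (‖deriv h ζ‖ + η) ^ 2 * s ^ 2 := by ring
    linarith
  have h10 : 0 < s ^ 2 := by positivity
  have := le_of_mul_le_mul_right h9 h10
  linarith

end Pool.Agent.G4.M
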