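import Pool.Agent.G3.CvA

/-!
# G4 M MDefs: negatively curved functions on the tangent vectors, on the cone

`FinM X Λ u D p m C`: the function `p` on the tangent vectors of the projective variety (`X` is the cone) is continuous, homogeneous of degree `m`, positive outside `D`, and for every holomorphic curve `F` over `h` the function
`log p (F, F') - log |F| + C ∑ |h i|²` satisfies the mean value inequality; the zeros of `p (F, F')` are isolated.
-/

set_option autoImplicit false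

open Topology Filter Metric

namespace Pool.Agent.G4.M

open Pool.Agent.H36.BP (EN fs wd Sub)
open Pool.Agent.H14.PP (IsCone CurveAt Tan)
open Pool.Agent.AD (Vd)
open Pool.Agent.G3 (Cv pf)

variable {N k : ℕ}

/-- negatively curved functions on the tangent vectors -/
structure FinM (X : Set (EN N)) (Λ : AddSubgroup (Vd (k + 1))) (u : EN N → Vd (k + 1)) (D : Set (Vd (k + 1))) (p : EN N → EN N → ℝ) (m : ℕ) (C : ℝ) : Prop where
  m_pos : 1 ≤ m
  C_nonneg : 0 ≤ C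
  nonneg : ∀ x v, 0 ≤ p x v
  hom : ∀ x ∈ X, ∀ v, Tan X x v → ∀ a b c : ℂ, c ≠ 0 → p (c • x) (c • (a • v + b • x)) = ‖a‖ ^ m * p x v
  cont : ContinuousOn (fun q : EN N × EN N => p q.1 q.2) {q | q.1 ∈ X ∧ Tan X q.1 q.2}
  pos : ∀ y ∉ D, ∀ x ∈ X, u x - y ∈ Λ → ∀ v, Tan X x v → p x v = 0 → ∃ c : ℂ, v = c • x
  mean : ∀ (U : Set ℂ) (F : ℂ → EN N) (h : ℂ → Vd (k + 1)), IsOpen U → Cv X Λ u U F h → ∀ (z : ℂ) (r : ℝ), 0 < r → closedBall z r ⊆ U → 0 < pf p F z →
    CircleIntegrable (fun w => Real.log (pf p F w) - Real.log ‖F w‖ + C * ∑ i, ‖h w i‖ ^ 2) z r ∧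
    Real.log (pf p F z) - Real.log ‖F z‖ + C * ∑ i, ‖h z i‖ ^ 2 ≤ Real.circleAverage (fun w => Real.log (pf p F w) - Real.log ‖F w‖ + C * ∑ i, ‖h w i‖ ^ 2) z r
  isol : ∀ (U : Set ℂ) (F : ℂ → EN N) (h : ℂ → Vd (k + 1)), IsOpen U → Cv X Λ u U F h → IsPreconnected U → (∃ z ∈ U, 0 < pf p F z) →
    ∀ z ∈ U, ∀ᶠ w in 𝓝[≠] z, 0 < pf p F w

end Pool.Agent.G4.M
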