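import Pool.Agent.G4.M.FDefs
import Pool.Agent.G4.M.MDefs
import Pool.Agent.TG.GuF

/-!
# G4 M ConM: the negatively curved metric on the cone
-/

set_option autoImplicit false

open Topology Filter Metric MvPolynomial

namespace Pool.Agent.G4.M

open Pool.Agent.H17 (PN)
open Pool.Agent.H62.FC (Homog)
open Pool.Agent.H17EF (projVar coneE LE mem_coneE)
open Pool.Agent.H17G (IsTangent isTangent_iff)
open Pool.Agent.H36.BP (EN fs wd Sub)
open Pool.Agent.H14.PP (IsCone CurveAt Tan)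
open Pool.Agent.AD (Vd uV)
open Pool.Agent.TGF (Cn Over over_iff)
open Pool.Agent.G3 (Cv pf)
open Pool.Agent.G4F (IsSubharmonic IsNegativeMetric HasMetric)

variable {N k : ℕ}

/-- isolated zeros -/
theorem isol_of_local {U : Set ℂ} (hU : IsPreconnected U) {g : ℂ → ℝ} (h : ∀ z ∈ U, (∀ᶠ w in 𝓝 z, g w = 0) ∨ ∀ᶠ w in 𝓝[≠] z, 0 < g w)
    (h0 : ∃ z ∈ U, 0 < g z) : ∀ z ∈ U, ∀ᶠ w in 𝓝[≠] z, 0 < g w := by
  have hA : IsOpen {z : ℂ | ∀ᶠ w in 𝓝 z, g w = 0} := isOpen_setOfPred_eventually_nhds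
  have hB : IsOpen {z : ℂ | ∀ᶠ w in 𝓝[≠] z, 0 < g w} := by
    rw [isOpen_iff_mem_nhds]
    intro z hz
    have hz' : ∀ᶠ w in 𝓝 z, w ≠ z → 0 < g w := eventually_nhdsWithin_iff.1 hz
    filter_upwards [eventually_eventually_nhds.2 hz'] with w hw
    rcases eq_or_ne w z with rfl | hne
    · exact hz
    · show ∀ᶠ w' in 𝓝[≠] w, 0 < g w'
      refine (Filter.Eventually.filter_mono nhdsWithin_le_nhds ?_)
      filter_upwards [hw, isOpen_ne.mem_nhds hne] with w' h1 h2
      exact h1 h2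
  intro z hz
  by_contra hcon
  obtain ⟨z₀, hz₀, h1⟩ := h0
  obtain ⟨w, -, hw1, hw2⟩ := hU _ _ hA hB (fun w hw => h w hw) ⟨z, hz, (h z hz).resolve_right hcon⟩ ⟨z₀, hz₀, (h z₀ hz₀).resolve_left fun h2 => h1.ne' h2.self_of_nhds⟩
  obtain ⟨w', h3, h4⟩ := ((Filter.Eventually.filter_mono nhdsWithin_le_nhds hw1 : ∀ᶠ w' in 𝓝[≠] w, g w' = 0).and hw2).exists
  exact h4.ne' h3

/-- the metric on the cone -/
theorem fin_of {P : Ideal (MvPolynomial (Fin (N + 1)) ℂ)} (hP : Homog P) {Λ : AddSubgroup (Cn (k + 1))} {u : PN N → Cn (k + 1) ⧸ Λ} {D : Set (Cn (k + 1))}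
    (hM : HasMetric (projVar P) Λ u D) : ∃ (m : ℕ) (C : ℝ) (p : EN N → EN N → ℝ), FinM (coneE P) Λ (uV Λ u) D p m C := by
  obtain ⟨m, C, p, hm, hC, h⟩ := hM
  have hov : ∀ x ∈ coneE P, Over (projVar P) Λ u (uV Λ u x) ((LE N).symm x) := fun x hx => (over_iff hP).2 ⟨hx, by rw [sub_self]; exact Λ.zero_mem⟩
  have hder : ∀ {U : Set ℂ} {F : ℂ → EN N}, IsOpen U → DifferentiableOn ℂ F U → ∀ z ∈ U, deriv (fun w => (LE N).symm (F w)) z = (LE N).symm (deriv F z) := by
    intro U F hU hF z hz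
    exact (((LE N).symm : EN N →L[ℂ] (Fin (N + 1) → ℂ)).hasFDerivAt.comp_hasDerivAt z (hF.differentiableAt (hU.mem_nhds hz)).hasDerivAt).deriv
  have hsub : ∀ (U : Set ℂ) (F : ℂ → EN N) (η : ℂ → Vd (k + 1)), IsOpen U → Cv (coneE P) Λ (uV Λ u) U F η →
      IsSubharmonic U (fun w => p ((LE N).symm (F w)) (deriv (fun w => (LE N).symm (F w)) w)) fun w => C * ∑ i, ‖η w i‖ ^ 2 - Real.log (∑ i, ‖(LE N).symm (F w) i‖ ^ 2) / 2 := by
    intro U F η hU hF
    exact h.subharmonic U (fun w => (LE N).symm (F w)) η hU ((LE N).symm.differentiable.comp_differentiableOn hF.F_diff) hF.h_diff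
      fun w hw => (over_iff hP).2 ⟨hF.mem w hw, hF.lift w hw⟩
  refine ⟨m, C, fun x v => p ((LE N).symm x) ((LE N).symm v), hm, hC, fun x v => h.nonneg _ _, ?_, ?_, ?_, ?_, ?_⟩
  · intro x hx v hv a b c hc
    have h1 := h.homogeneous _ _ (hov x hx) _ ((isTangent_iff hP hx).2 hv) a b c hc
    rw [← h1]
    simp only [map_smul, map_add]
  · have h1 : ContinuousOn (fun q : EN N × EN N => ((LE N).symm q.1, (LE N).symm q.2)) {q | q.1 ∈ coneE P ∧ Tan (coneE P) q.1 q.2} :=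
      (((LE N).symm.continuous.comp continuous_fst).prodMk ((LE N).symm.continuous.comp continuous_snd)).continuousOn
    exact h.continuous.comp h1 fun q hq => ⟨⟨_, hov _ hq.1⟩, (isTangent_iff hP hq.1).2 hq.2⟩
  · intro y hy x hx hxy v hv h0
    obtain ⟨c, hc⟩ := h.positive y hy _ ((over_iff hP).2 ⟨hx, hxy⟩) _ ((isTangent_iff hP hx).2 hv) h0
    refine ⟨c, ?_⟩
    rw [← map_smul] at hc
    exact (LE N).symm.injective hc
  · intro U F η hU hF z r hr hz h0
    have hzU : z ∈ U := hz (mem_closedBall_self hr.le)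
    have h1 := (hsub U F η hU hF).2 z r hr hz (by
      show 0 < p ((LE N).symm (F z)) (deriv (fun w => (LE N).symm (F w)) z)
      rw [hder hU hF.F_diff z hzU]
      exact h0)
    have heq : ∀ w ∈ U, Real.log (p ((LE N).symm (F w)) (deriv (fun w => (LE N).symm (F w)) w)) + (C * ∑ i, ‖η w i‖ ^ 2 - Real.log (∑ i, ‖(LE N).symm (F w) i‖ ^ 2) / 2) =
        Real.log (pf (fun x v => p ((LE N).symm x) ((LE N).symm v)) F w) - Real.log ‖F w‖ + C * ∑ i, ‖η w i‖ ^ 2 := by
      intro w hw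
      rw [hder hU hF.F_diff w hw]
      have h2 : Real.log ‖F w‖ = Real.log (∑ i, ‖(LE N).symm (F w) i‖ ^ 2) / 2 := by
        rw [EuclideanSpace.norm_eq, Real.log_sqrt (Finset.sum_nonneg fun i _ => by positivity)]
        rfl
      rw [h2]
      show Real.log (p ((LE N).symm (F w)) ((LE N).symm (deriv F w))) + _ = Real.log (p ((LE N).symm (F w)) ((LE N).symm (deriv F w))) - _ + _
      ring
    have hsph : Set.EqOn (fun w => Real.log (p ((LE N).symm (F w)) (deriv (fun w => (LE N).symm (F w)) w)) + (C * ∑ i, ‖η w i‖ ^ 2 - Real.log (∑ i, ‖(LE N).symm (F w) i‖ ^ 2) / 2))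
        (fun w => Real.log (pf (fun x v => p ((LE N).symm x) ((LE N).symm v)) F w) - Real.log ‖F w‖ + C * ∑ i, ‖η w i‖ ^ 2) (sphere z |r|) := by
      intro w hw
      rw [abs_of_pos hr] at hw
      exact heq w (hz (sphere_subset_closedBall hw))
    rw [Real.circleAverage_congr_sphere hsph] at h1
    refine ⟨(circleIntegrable_congr hsph).1 h1.1, ?_⟩
    rw [← heq z hzU]
    exact h1.2
  · intro U F η hU hF hUc h0
    refine isol_of_local hUc ?_ h0
    intro z hz
    have hev : ∀ᶠ w in 𝓝 z, p ((LE N).symm (F w)) (deriv (fun w => (LE N).symm (F w)) w) = pf (fun x v => p ((LE N).symm x) ((LE N).symm v)) F w := by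
      filter_upwards [hU.mem_nhds hz] with w hw
      rw [hder hU hF.F_diff w hw]
      rfl
    refine ((hsub U F η hU hF).1 z hz).imp (fun h1 => ?_) fun h1 => ?_
    · filter_upwards [h1, hev] with w h2 h3
      rw [← h3]
      exact h2
    · filter_upwards [h1, nhdsWithin_le_nhds hev] with w h2 h3
      rw [← h3]
      exact h2

end Pool.Agent.G4.M
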