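import Pool.Agent.G4.M.MDefs
import Pool.Agent.AD.ChartBasic
import Pool.Agent.TG.Gd
import Pool.Agent.TG.Tc
import Pool.Agent.TG.Y.Dv
import Pool.Agent.AD.ChartFs

/-!
# G4 M Low: comparison of `p` with the Fubini-Study length

As `G3/PS/Low`: in a chart `χ` the function `LowG p χ q w = p (χ.σ q) (dσ_q w)` is continuous in `(q, w)`, homogeneous in `w`; compactness of the unit sphere and of `X ∩ sphere`.
-/

set_option autoImplicit false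

open Topology Filter Metric

namespace Pool.Agent.G4.M

open Pool.Agent.H36.BP (EN fs wd Sub)
open Pool.Agent.H14.PP (IsCone CurveAt Tan)
open Pool.Agent.H62.EF (MN pr)
open Pool.Agent.AD (Vd Chart Charts)
open Pool.Agent.TG (TMap Lat Geo Gd)

variable {N k : ℕ} {X : Set (EN N)} {Λ : AddSubgroup (Vd (k + 1))} {u : EN N → Vd (k + 1)} {D : Set (Vd (k + 1))} {m : ℕ} {p : EN N → EN N → ℝ} {C₀ : ℝ}

/-- the value of `p` in a chart -/
private noncomputable def LowG (p : EN N → EN N → ℝ) (χ : Chart (k + 2) X) (q w : Vd (k + 2)) : ℝ := p (χ.σ q) (fderiv ℂ χ.σ q w)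

private theorem Low_tan_smul (hX : IsCone X) {x v : EN N} (h : Tan X x v) {c : ℂ} (hc : c ≠ 0) : Tan X (c • x) (c • v) := by
  obtain ⟨F, hF, hF0, hFd⟩ := h
  refine ⟨fun z => c • F z, ⟨AnalyticAt.fun_smul analyticAt_const hF.1, ?_⟩, ?_, ?_⟩
  · filter_upwards [hF.2] with z hz
    exact hX.smul_mem _ hz c hc
  · show c • F 0 = c • x
    rw [hF0]
  · have h1 : HasDerivAt (fun z => c • F z) (c • deriv F 0) 0 :=
      hF.1.differentiableAt.hasDerivAt.const_smul c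
    rw [h1.deriv, hFd]

private theorem Low_eq (hX : IsCone X) (hP : FinM X Λ u D p m C₀) (χ : Chart (k + 2) X) {x : EN N} (hx : x ∈ X) (hU : x ∈ χ.U) {v : EN N} (hv : Tan X x v) :
    p x v = LowG p χ (χ.q x) (fderiv ℂ χ.q x v) := by
  obtain ⟨c, a, hc, hxc, hvc⟩ := Pool.Agent.TG.tan_decomp hX χ hx hU hv
  have hb : χ.q x ∈ ball (0 : Vd (k + 2)) 2 := (χ.surj x hx hU).1
  have hσX : χ.σ (χ.q x) ∈ X := (χ.σ_mem _ hb).1
  have htσ : Tan X (χ.σ (χ.q x)) (fderiv ℂ χ.σ (χ.q x) (fderiv ℂ χ.q x v)) := Pool.Agent.TG.tan_sigma χ hb _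
  have h1 := hP.hom _ hσX _ htσ 1 a c hc
  rw [norm_one, one_pow, one_mul, one_smul] at h1
  have h2 : v = c • (fderiv ℂ χ.σ (χ.q x) (fderiv ℂ χ.q x v) + a • χ.σ (χ.q x)) := by
    conv_lhs => rw [hvc]
    rw [smul_add, smul_comm c a, ← hxc]
  unfold LowG
  rw [← h1, ← hxc, ← h2]

private theorem Low_hom (hP : FinM X Λ u D p m C₀) (χ : Chart (k + 2) X) {q : Vd (k + 2)} (hb : q ∈ ball (0 : Vd (k + 2)) 2) (w : Vd (k + 2)) (t : ℂ) :
    LowG p χ q (t • w) = ‖t‖ ^ m * LowG p χ q w := by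
  have hσX : χ.σ q ∈ X := (χ.σ_mem _ hb).1
  have h1 := hP.hom _ hσX _ (Pool.Agent.TG.tan_sigma χ hb w) t 0 1 one_ne_zero
  rw [one_smul, one_smul, zero_smul, add_zero] at h1
  unfold LowG
  rw [map_smul, h1]

private theorem Low_cont (hP : FinM X Λ u D p m C₀) (χ : Chart (k + 2) X) {q : Vd (k + 2)} (hb : q ∈ ball (0 : Vd (k + 2)) 2) (w : Vd (k + 2)) :
    ContinuousAt (fun z : Vd (k + 2) × Vd (k + 2) => LowG p χ z.1 z.2) (q, w) := by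
  have hfst : ContinuousAt (fun z : Vd (k + 2) × Vd (k + 2) => z.1) (q, w) := continuousAt_fst
  have h2 : ContinuousAt (fun z : Vd (k + 2) × Vd (k + 2) => χ.σ z.1) (q, w) :=
    ContinuousAt.comp (f := fun z : Vd (k + 2) × Vd (k + 2) => z.1) (g := χ.σ) (χ.σ_an q hb).continuousAt hfst
  have h3 : ContinuousAt (fun z : Vd (k + 2) × Vd (k + 2) => fderiv ℂ χ.σ z.1) (q, w) :=
    ContinuousAt.comp (f := fun z : Vd (k + 2) × Vd (k + 2) => z.1) (g := fderiv ℂ χ.σ) (χ.σ_an q hb).fderiv.continuousAt hfst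
  have h4 : ContinuousAt (fun z : Vd (k + 2) × Vd (k + 2) => fderiv ℂ χ.σ z.1 z.2) (q, w) := h3.clm_apply continuousAt_snd
  have h5 : ContinuousAt (fun z : Vd (k + 2) × Vd (k + 2) => (χ.σ z.1, fderiv ℂ χ.σ z.1 z.2)) (q, w) := h2.prodMk h4
  have hev : ∀ᶠ z in 𝓝 (q, w), (χ.σ z.1, fderiv ℂ χ.σ z.1 z.2) ∈ {q : EN N × EN N | q.1 ∈ X ∧ Tan X q.1 q.2} := by
    have h6 : ∀ᶠ z : Vd (k + 2) × Vd (k + 2) in 𝓝 (q, w), z.1 ∈ ball (0 : Vd (k + 2)) 2 := hfst.eventually (isOpen_ball.mem_nhds hb)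
    filter_upwards [h6] with z hz
    exact ⟨(χ.σ_mem _ hz).1, Pool.Agent.TG.tan_sigma χ hz z.2⟩
  have h7 := hP.cont (χ.σ q, fderiv ℂ χ.σ q w) ⟨(χ.σ_mem _ hb).1, Pool.Agent.TG.tan_sigma χ hb w⟩
  exact h7.tendsto.comp (tendsto_nhdsWithin_iff.2 ⟨h5, hev⟩)

private theorem Low_nonneg (hP : FinM X Λ u D p m C₀) (χ : Chart (k + 2) X) (q w : Vd (k + 2)) : 0 ≤ LowG p χ q w := hP.nonneg _ _

/-- the local upper bound in the chart -/
private theorem Low_upper (hP : FinM X Λ u D p m C₀) (χ : Chart (k + 2) X) {q : Vd (k + 2)}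
    (hb : q ∈ ball (0 : Vd (k + 2)) 2) :
    ∃ C : ℝ, ∀ᶠ s in 𝓝 q, ∀ w ∈ sphere (0 : Vd (k + 2)) 1, LowG p χ s w ≤ C := by
  refine (isCompact_sphere (0 : Vd (k + 2)) 1).induction_on
    (p := fun S : Set (Vd (k + 2)) => ∃ C : ℝ, ∀ᶠ s in 𝓝 q, ∀ w ∈ S, LowG p χ s w ≤ C) ?_ ?_ ?_ ?_
  · exact ⟨0, Filter.Eventually.of_forall fun p w hw => absurd hw (Set.notMem_empty w)⟩
  · rintro S T hST ⟨C, hC⟩
    exact ⟨C, hC.mono fun p hp w hw => hp w (hST hw)⟩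
  · rintro S T ⟨C, hC⟩ ⟨C', hC'⟩
    refine ⟨max C C', ?_⟩
    filter_upwards [hC, hC'] with p h1 h2 w hw
    rcases hw with hw | hw
    · exact (h1 w hw).trans (le_max_left _ _)
    · exact (h2 w hw).trans (le_max_right _ _)
  · intro w _
    have h1 := Low_cont hP χ hb w
    have h2 : ∀ᶠ z in 𝓝 ((q, w) : Vd (k + 2) × Vd (k + 2)), LowG p χ z.1 z.2 < LowG p χ q w + 1 :=
      h1.eventually_lt_const (by show LowG p χ q w < LowG p χ q w + 1; linarith)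
    rw [nhds_prod_eq] at h2
    obtain ⟨pa, hpa, pb, hpb, hab⟩ := Filter.eventually_prod_iff.mp h2
    exact ⟨{w' | pb w'}, mem_nhdsWithin_of_mem_nhds hpb, LowG p χ q w + 1, hpa.mono fun p hp w' hw' => (hab hp hw').le⟩

/-- the local lower bound in the chart -/
private theorem Low_lower (hP : FinM X Λ u D p m C₀) (χ : Chart (k + 2) X) {q : Vd (k + 2)}
    (hb : q ∈ ball (0 : Vd (k + 2)) 2)
    (hpos : ∀ w ∈ sphere (0 : Vd (k + 2)) 1, 0 < LowG p χ q w) :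
    ∃ c : ℝ, 0 < c ∧ ∀ᶠ s in 𝓝 q, ∀ w ∈ sphere (0 : Vd (k + 2)) 1, c ≤ LowG p χ s w := by
  refine (isCompact_sphere (0 : Vd (k + 2)) 1).induction_on
    (p := fun S : Set (Vd (k + 2)) => ∃ c : ℝ, 0 < c ∧ ∀ᶠ s in 𝓝 q, ∀ w ∈ S, c ≤ LowG p χ s w) ?_ ?_ ?_ ?_
  · exact ⟨1, one_pos, Filter.Eventually.of_forall fun p w hw => absurd hw (Set.notMem_empty w)⟩
  · rintro S T hST ⟨C, hC0, hC⟩
    exact ⟨C, hC0, hC.mono fun p hp w hw => hp w (hST hw)⟩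
  · rintro S T ⟨C, hC0, hC⟩ ⟨C', hC0', hC'⟩
    refine ⟨min C C', lt_min hC0 hC0', ?_⟩
    filter_upwards [hC, hC'] with p h1 h2 w hw
    rcases hw with hw | hw
    · exact (min_le_left _ _).trans (h1 w hw)
    · exact (min_le_right _ _).trans (h2 w hw)
  · intro w hw
    have h0 := hpos w hw
    have h1 := Low_cont hP χ hb w
    have h2 : ∀ᶠ z in 𝓝 ((q, w) : Vd (k + 2) × Vd (k + 2)), LowG p χ q w / 2 < LowG p χ z.1 z.2 :=
      h1.eventually_const_lt (by show LowG p χ q w / 2 < LowG p χ q w; linarith)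
    rw [nhds_prod_eq] at h2
    obtain ⟨pa, hpa, pb, hpb, hab⟩ := Filter.eventually_prod_iff.mp h2
    exact ⟨{w' | pb w'}, mem_nhdsWithin_of_mem_nhds hpb, LowG p χ q w / 2, by linarith, hpa.mono fun p hp w' hw' => (hab hp hw').le⟩

private theorem Low_norm {w : Vd (k + 2)} (hw : w ≠ 0) : ∃ w' ∈ sphere (0 : Vd (k + 2)) 1, w = ((‖w‖ : ℝ) : ℂ) • w' := by
  have hn : ‖w‖ ≠ 0 := norm_ne_zero_iff.mpr hw
  have hn' : ((‖w‖ : ℝ) : ℂ) ≠ 0 := by exact_mod_cast hn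
  refine ⟨(((‖w‖ : ℝ) : ℂ))⁻¹ • w, ?_, ?_⟩
  · rw [mem_sphere_zero_iff_norm, norm_smul, norm_inv, Complex.norm_real, norm_norm]
    exact inv_mul_cancel₀ hn
  · rw [smul_inv_smul₀ hn']

/-- invariance under scaling -/
private theorem Low_scale (hP : FinM X Λ u D p m C₀) {x : EN N} (hx : x ∈ X) {v : EN N} (hv : Tan X x v) {c : ℂ} (hc : c ≠ 0) :
    p (c • x) (c • v) = p x v := by
  have h1 := hP.hom x hx v hv 1 0 c hc
  rwa [one_smul, zero_smul, add_zero, norm_one, one_pow, one_mul] at h1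

private theorem Low_fs_scale (hX : IsCone X) {x : EN N} (hx : x ∈ X) (v : EN N) {c : ℂ} (hc : c ≠ 0) : fs (c • x) (c • v) = fs x v := by
  have h1 := Pool.Agent.H36.BP.fs_inv (Pool.Agent.TG.ne_zero hX hx) v hc 0
  rwa [zero_smul, add_zero] at h1

private theorem Low_le_loc (hX : IsCone X) (hch : Charts (k + 2) X) (hP : FinM X Λ u D p m C₀) {x₀ : EN N} (hx₀ : x₀ ∈ X) :
    ∃ C : ℝ, ∀ᶠ x in 𝓝 x₀, x ∈ X → ∀ v, Tan X x v → p x v ≤ C * fs x v ^ m := by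
  obtain ⟨χ, hU, hq0⟩ := hch x₀ hx₀
  have hb : χ.q x₀ ∈ ball (0 : Vd (k + 2)) 2 := (χ.surj x₀ hx₀ hU).1
  obtain ⟨C, hC⟩ := Low_upper hP χ hb
  obtain ⟨C₁, hC₁, hfs, -⟩ := χ.exists_fs_bound hX
  have hqc : Tendsto χ.q (𝓝 x₀) (𝓝 (χ.q x₀)) := (χ.q_an x₀ hU).continuousAt
  have hq1 : ∀ᶠ x in 𝓝 x₀, ‖χ.q x‖ < 1 := hqc.norm.eventually_lt_const (by rw [hq0, norm_zero]; exact one_pos)
  refine ⟨max C 0 * C₁ ^ m, ?_⟩
  filter_upwards [hqc.eventually hC, hq1, χ.isOpen_U.mem_nhds hU, hqc.eventually (isOpen_ball.mem_nhds hb)] with x h1 h3 h4 h5 hx v hv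
  rw [Low_eq hX hP χ hx h4 hv]
  set w := fderiv ℂ χ.q x v with hw
  have h6 : LowG p χ (χ.q x) w ≤ max C 0 * ‖w‖ ^ m := by
    by_cases hw0 : w = 0
    · have h7 := Low_hom hP χ h5 w 0
      rw [zero_smul, norm_zero, zero_pow (by have := hP.m_pos; omega), zero_mul] at h7
      rw [hw0, h7]
      positivity
    · obtain ⟨w', hw', hww⟩ := Low_norm hw0
      have h7 := Low_hom hP χ h5 w' ((‖w‖ : ℝ) : ℂ)
      rw [← hww, Complex.norm_real, norm_norm] at h7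
      rw [h7, mul_comm]
      exact mul_le_mul_of_nonneg_right ((h1 w' hw').trans (le_max_left _ _)) (by positivity)
  refine h6.trans ?_
  rw [mul_assoc, ← mul_pow]
  refine mul_le_mul_of_nonneg_left ?_ (le_max_right _ _)
  exact pow_le_pow_left₀ (norm_nonneg _) (hfs x hx h4 h3.le v) m

private theorem Low_ge_loc (hX : IsCone X) (hch : Charts (k + 2) X) (hu : TMap X Λ u) (hP : FinM X Λ u D p m C₀) {x₀ : EN N} (hx₀ : x₀ ∈ X) {y₀ : Vd (k + 1)}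
    (hy₀ : y₀ ∉ D) (hxy : u x₀ - y₀ ∈ Λ) :
    ∃ c : ℝ, 0 < c ∧ ∀ᶠ x in 𝓝 x₀, x ∈ X → ∀ v, Tan X x v → c * fs x v ^ m ≤ p x v := by
  obtain ⟨χ, hU, hq0⟩ := hch x₀ hx₀
  obtain ⟨υ, hυ, hυe, hl⟩ := Pool.Agent.TG.exists_lift_chart hX hu χ hx₀ hU hxy
  have hb : χ.q x₀ ∈ ball (0 : Vd (k + 2)) 2 := (χ.surj x₀ hx₀ hU).1
  have hσ := χ.σ_mem _ hb
  have hlσ : u (χ.σ (χ.q x₀)) - y₀ ∈ Λ := by
    have h1 := hl.self_of_nhds
    rwa [hυe] at h1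
  have hpos : ∀ w ∈ sphere (0 : Vd (k + 2)) 1, 0 < LowG p χ (χ.q x₀) w := by
    intro w hw
    rw [mem_sphere_zero_iff_norm] at hw
    rcases (Low_nonneg hP χ (χ.q x₀) w).eq_or_lt with h0 | h0
    · exfalso
      obtain ⟨c, hc⟩ := hP.pos y₀ hy₀ _ hσ.1 hlσ _ (Pool.Agent.TG.tan_sigma χ hb w) h0.symm
      have h3 := χ.fderiv_sigma hb w
      rw [hc, map_smul, χ.fderiv_q_self hσ.2.1, smul_zero] at h3
      rw [← h3, norm_zero] at hw
      exact zero_ne_one hw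
    · exact h0
  obtain ⟨c, hc0, hc⟩ := Low_lower hP χ hb hpos
  obtain ⟨C₁, hC₁, -, hfs⟩ := χ.exists_fs_bound hX
  have hqc : Tendsto χ.q (𝓝 x₀) (𝓝 (χ.q x₀)) := (χ.q_an x₀ hU).continuousAt
  have hq1 : ∀ᶠ x in 𝓝 x₀, ‖χ.q x‖ < 1 := hqc.norm.eventually_lt_const (by rw [hq0, norm_zero]; exact one_pos)
  have hC₁' : 0 < C₁ ^ m := by positivity
  refine ⟨c / C₁ ^ m, by positivity, ?_⟩
  filter_upwards [hqc.eventually hc, hq1, χ.isOpen_U.mem_nhds hU, hqc.eventually (isOpen_ball.mem_nhds hb)] with x h1 h3 h4 h5 hx v hv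
  rw [Low_eq hX hP χ hx h4 hv]
  set w := fderiv ℂ χ.q x v with hw
  have h6 : c * ‖w‖ ^ m ≤ LowG p χ (χ.q x) w := by
    by_cases hw0 : w = 0
    · rw [hw0, norm_zero, zero_pow (by have := hP.m_pos; omega), mul_zero]
      exact Low_nonneg hP χ _ _
    · obtain ⟨w', hw', hww⟩ := Low_norm hw0
      have h7 := Low_hom hP χ h5 w' ((‖w‖ : ℝ) : ℂ)
      rw [← hww, Complex.norm_real, norm_norm] at h7
      rw [h7, mul_comm]
      exact mul_le_mul_of_nonneg_left (h1 w' hw') (by positivity)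
  have h8 : fs x v ≤ C₁ * ‖w‖ := by
    obtain ⟨F, hF, hF0, hFd⟩ := hv
    have h9 := hfs F 0 hF (by rw [hF0]; exact h4) (by rw [hF0]; exact h3.le)
    have h10 := (χ.curve hX hF (by rw [hF0]; exact h4)).2.1
    rw [h10, hF0, hFd] at h9
    exact h9
  have h9 : fs x v ^ m ≤ C₁ ^ m * ‖w‖ ^ m := by
    rw [← mul_pow]
    exact pow_le_pow_left₀ (Pool.Agent.H36.BP.fs_nonneg _ _) h8 m
  calc c / C₁ ^ m * fs x v ^ m ≤ c / C₁ ^ m * (C₁ ^ m * ‖w‖ ^ m) := mul_le_mul_of_nonneg_left h9 (by positivity)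
    _ = c * ‖w‖ ^ m := by field_simp
    _ ≤ _ := h6

theorem le_fs (hX : IsCone X) (hch : Charts (k + 2) X) (hP : FinM X Λ u D p m C₀) :
    ∃ C : ℝ, 0 < C ∧ ∀ x ∈ X, ∀ v, Tan X x v → p x v ≤ C * fs x v ^ m := by
  have h1 : ∃ C : ℝ, ∀ x ∈ X ∩ sphere (0 : EN N) 1, ∀ v, Tan X x v → p x v ≤ C * fs x v ^ m := by
    refine (Pool.Agent.TG.compact_unit hX).induction_on
      (p := fun S : Set (EN N) => ∃ C : ℝ, ∀ x ∈ S, x ∈ X → ∀ v, Tan X x v → p x v ≤ C * fs x v ^ m) ?_ ?_ ?_ ?_ |>.imp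
      fun C hC x hx => hC x hx hx.1
    · exact ⟨0, fun x hx => absurd hx (Set.notMem_empty x)⟩
    · rintro S T hST ⟨C, hC⟩
      exact ⟨C, fun x hx => hC x (hST hx)⟩
    · rintro S T ⟨C, hC⟩ ⟨C', hC'⟩
      refine ⟨max C C', fun x hx hxX v hv => ?_⟩
      have h0 : 0 ≤ fs x v ^ m := pow_nonneg (Pool.Agent.H36.BP.fs_nonneg _ _) _
      rcases hx with hx | hx
      · exact (hC x hx hxX v hv).trans (mul_le_mul_of_nonneg_right (le_max_left _ _) h0)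
      · exact (hC' x hx hxX v hv).trans (mul_le_mul_of_nonneg_right (le_max_right _ _) h0)
    · intro x hx
      obtain ⟨C, hC⟩ := Low_le_loc hX hch hP hx.1
      exact ⟨_, mem_nhdsWithin_of_mem_nhds hC, C, fun y hy => hy⟩
  obtain ⟨C, hC⟩ := h1
  refine ⟨max C 1, lt_max_of_lt_right one_pos, fun x hx v hv => ?_⟩
  obtain ⟨c, hc, hcx⟩ := Pool.Agent.TG.exists_unit hX hx
  have h2 := hC (c • x) hcx (c • v) (Low_tan_smul hX hv hc)
  rw [Low_scale hP hx hv hc, Low_fs_scale hX hx v hc] at h2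
  exact h2.trans (mul_le_mul_of_nonneg_right (le_max_left _ _) (pow_nonneg (Pool.Agent.H36.BP.fs_nonneg _ _) _))

theorem ge_fs (hX : IsCone X) (hch : Charts (k + 2) X) (hu : TMap X Λ u) (hP : FinM X Λ u D p m C₀) {δ : ℝ} (hδ : 0 < δ) :
    ∃ c : ℝ, 0 < c ∧ ∀ y ∈ Gd D δ, ∀ x ∈ X, u x - y ∈ Λ → ∀ v, Tan X x v → c * fs x v ^ m ≤ p x v := by
  set S₀ : Set (EN N) := {x | x ∈ X ∩ sphere (0 : EN N) 1 ∧ ∃ y ∈ Gd D δ, u x - y ∈ Λ} with hS₀
  have hsub : closure S₀ ⊆ X ∩ sphere (0 : EN N) 1 := by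
    refine closure_minimal (fun x hx => hx.1) (Pool.Agent.TG.compact_unit hX).isClosed
  have hK : IsCompact (closure S₀) := (Pool.Agent.TG.compact_unit hX).of_isClosed_subset isClosed_closure hsub
  have hy : ∀ x₀ ∈ closure S₀, ∃ y₀ ∉ D, u x₀ - y₀ ∈ Λ := by
    intro x₀ hx₀
    have hxX := (hsub hx₀).1
    obtain ⟨v, hv, hvl⟩ := hu.loc x₀ hxX
    have h1 : ∀ᶠ x in 𝓝 x₀, ‖v x - v x₀‖ < δ := by
      have h2 : ContinuousAt (fun x => v x - v x₀) x₀ := hv.continuousAt.sub continuousAt_const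
      refine h2.norm.eventually_lt_const ?_
      simpa using hδ
    obtain ⟨x, ⟨hx1, hx2⟩, hx3⟩ := mem_closure_iff_nhds.1 hx₀ _ (h1.and hvl)
    obtain ⟨y, hy, hxy⟩ := hx3.2
    refine ⟨y + (v x₀ - v x), ?_, ?_⟩
    · intro hD
      have h3 := hy _ hD
      have h4 : y - (y + (v x₀ - v x)) = v x - v x₀ := by abel
      rw [h4] at h3
      linarith
    · have h3 := Λ.add_mem (Λ.sub_mem (hvl.self_of_nhds hxX) (hx2 hx3.1.1)) hxy
      have e : u x₀ - v x₀ - (u x - v x) + (u x - y) = u x₀ - (y + (v x₀ - v x)) := by abel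
      rwa [e] at h3
  have h1 : ∃ c : ℝ, 0 < c ∧ ∀ x ∈ closure S₀, x ∈ X → ∀ v, Tan X x v → c * fs x v ^ m ≤ p x v := by
    refine hK.induction_on
      (p := fun S : Set (EN N) => ∃ c : ℝ, 0 < c ∧ ∀ x ∈ S, x ∈ X → ∀ v, Tan X x v → c * fs x v ^ m ≤ p x v) ?_ ?_ ?_ ?_
    · exact ⟨1, one_pos, fun x hx => absurd hx (Set.notMem_empty x)⟩
    · rintro S T hST ⟨C, hC0, hC⟩
      exact ⟨C, hC0, fun x hx => hC x (hST hx)⟩
    · rintro S T ⟨C, hC0, hC⟩ ⟨C', hC0', hC'⟩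
      refine ⟨min C C', lt_min hC0 hC0', fun x hx hxX v hv => ?_⟩
      have h0 : 0 ≤ fs x v ^ m := pow_nonneg (Pool.Agent.H36.BP.fs_nonneg _ _) _
      rcases hx with hx | hx
      · exact (mul_le_mul_of_nonneg_right (min_le_left _ _) h0).trans (hC x hx hxX v hv)
      · exact (mul_le_mul_of_nonneg_right (min_le_right _ _) h0).trans (hC' x hx hxX v hv)
    · intro x hx
      obtain ⟨y₀, hy₀, hxy⟩ := hy x hx
      obtain ⟨c, hc0, hc⟩ := Low_ge_loc hX hch hu hP (hsub hx).1 hy₀ hxy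
      exact ⟨_, mem_nhdsWithin_of_mem_nhds hc, c, hc0, fun y hy => hy⟩
  obtain ⟨c, hc0, hc⟩ := h1
  refine ⟨c, hc0, fun y hyG x hx hxy v hv => ?_⟩
  obtain ⟨a, ha, hax⟩ := Pool.Agent.TG.exists_unit hX hx
  have h2 : a • x ∈ closure S₀ := subset_closure ⟨hax, y, hyG, Pool.Agent.TG.smul_mem_lat hu hx hxy ha⟩
  have h3 := hc (a • x) h2 hax.1 (a • v) (Low_tan_smul hX hv ha)
  rwa [Low_scale hP hx hv ha, Low_fs_scale hX hx v ha] at h3

end Pool.Agent.G4.M
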