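import Pool.Agent.G4.M.Low
import Pool.Agent.G3.PS.Du

/-!
# G4 M Met: the structure `PS` from a negatively curved function

`FinM` gives all properties of `PS`; Jensen's inequality is the mean value inequality and `mean |h|^2 - |h z|^2 = mean |h - h z|^2` (`cA_sq`).
-/

set_option autoImplicit false

open Topology Filter Metric

namespace Pool.Agent.G4.M

open Pool.Agent.H36.BP (EN fs wd Sub)
open Pool.Agent.H14.PP (IsCone CurveAt Tan)
open Pool.Agent.H62.EF (MN pr)
open Pool.Agent.AD (Vd Chart Charts)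
open Pool.Agent.TG (TMap Lat Geo Gd)
open Pool.Agent.G3 (Cv PS pf TT du_bound)

variable {N k : ℕ} {X : Set (EN N)} {Λ : AddSubgroup (Vd (k + 1))} {u : EN N → Vd (k + 1)} {D : Set (Vd (k + 1))} {m : ℕ} {p : EN N → EN N → ℝ} {C₀ : ℝ}

/-- the mean of `‖g‖ ^ 2` -/
theorem cA_sq {g : ℂ → ℂ} {z : ℂ} {s : ℝ} (hs : 0 < s) (hg : DifferentiableOn ℂ g (closedBall z s)) :
    Real.circleAverage (fun w => ‖g w‖ ^ 2) z s = ‖g z‖ ^ 2 + Real.circleAverage (fun w => ‖g w - g z‖ ^ 2) z s := by
  have har : |s| = s := abs_of_pos hs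
  have hsub : sphere z s ⊆ closedBall z s := sphere_subset_closedBall
  have hgc : ContinuousOn g (sphere z s) := hg.continuousOn.mono hsub
  have hd : DiffContOnCl ℂ g (ball z |s|) := by
    rw [har]
    exact DifferentiableOn.diffContOnCl (by rwa [closure_ball z hs.ne'])
  have hmean : Real.circleAverage g z s = g z := hd.circleAverage
  have hIg : CircleIntegrable g z s := hgc.circleIntegrable hs.le
  set L : ℂ →L[ℝ] ℝ := Complex.reCLM.comp ((ContinuousLinearMap.mul ℂ ℂ ((starRingEnd ℂ) (g z))).restrictScalars ℝ) with hL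
  have hLv : ∀ w, L w = ((starRingEnd ℂ) (g z) * w).re := fun w => by
    simp [hL]
  have hlin : Real.circleAverage (fun w => L (g w)) z s = L (g z) := by
    have := L.circleAverage_comp_comm hIg
    rw [hmean] at this
    exact this
  have hIL : CircleIntegrable (fun w => L (g w)) z s := (L.continuous.comp_continuousOn hgc).circleIntegrable hs.le
  have hIn : CircleIntegrable (fun w => ‖g w - g z‖ ^ 2) z s := ((hgc.sub continuousOn_const).norm.pow 2).circleIntegrable hs.le
  have hpt : (fun w => ‖g w‖ ^ 2) = fun w => ((2 : ℝ) • (L (g w)) + ‖g w - g z‖ ^ 2) + (-‖g z‖ ^ 2) := by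
    funext w
    rw [hLv, Complex.sq_norm, Complex.sq_norm, Complex.sq_norm, Complex.normSq_apply, Complex.normSq_apply, Complex.normSq_apply]
    simp only [Complex.sub_re, Complex.sub_im, Complex.mul_re, Complex.conj_re, Complex.conj_im, smul_eq_mul]
    ring
  have hI1 : CircleIntegrable (fun w => (2 : ℝ) • (L (g w))) z s := hIL.const_fun_smul
  rw [hpt, Real.circleAverage_fun_add (hI1.fun_add hIn) (circleIntegrable_const _ _ _), Real.circleAverage_fun_add hI1 hIn,
    Real.circleAverage_fun_smul, Real.circleAverage_const, hlin, hLv]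
  have h1 : ((starRingEnd ℂ) (g z) * g z).re = ‖g z‖ ^ 2 := by
    rw [Complex.sq_norm, Complex.normSq_apply]
    simp [Complex.mul_re]
  rw [h1, smul_eq_mul]
  ring

theorem avg_nonneg {g : ℂ → ℝ} (hg : ∀ w, 0 ≤ g w) (z : ℂ) (s : ℝ) : 0 ≤ Real.circleAverage g z s := by
  unfold Real.circleAverage
  rw [smul_eq_mul]
  refine mul_nonneg (inv_nonneg.2 (by positivity)) ?_
  exact intervalIntegral.integral_nonneg (by positivity) fun θ _ => hg _

theorem fin_cont (hP : FinM X Λ u D p m C₀) {U : Set ℂ} (hU : IsOpen U) {F : ℂ → EN N} {h : ℂ → Vd (k + 1)} (hF : Cv X Λ u U F h) : ContinuousOn (pf p F) U := by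
  have h1 : ContinuousOn (fun z => (F z, deriv F z)) U :=
    hF.F_diff.continuousOn.prodMk fun z hz => ((hF.F_diff.analyticAt (hU.mem_nhds hz)).deriv.continuousAt).continuousWithinAt
  exact hP.cont.comp h1 fun z hz => ⟨hF.mem z hz, hF.tan hU hz⟩

theorem fin_jensen (hX : IsCone X) (hP : FinM X Λ u D p m C₀) {U : Set ℂ} (hU : IsOpen U) {F : ℂ → EN N} {h : ℂ → Vd (k + 1)} (hF : Cv X Λ u U F h) {z : ℂ} {s : ℝ} (hs : 0 < s)
    (hz : closedBall z s ⊆ U) (h0 : 0 < pf p F z) :
    CircleIntegrable (fun w => Real.log (pf p F w)) z s ∧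
    Real.log (pf p F z) + TT F z s ≤ Real.circleAverage (fun w => Real.log (pf p F w)) z s + C₀ * (k + 1) * Real.circleAverage (fun w => ‖h w - h z‖ ^ 2) z s := by
  have hsub : sphere z s ⊆ closedBall z s := sphere_subset_closedBall
  have hFne : ∀ w ∈ closedBall z s, F w ≠ 0 := fun w hw h => hX.zero_notMem (h ▸ hF.mem w (hz hw))
  obtain ⟨hI, hm⟩ := hP.mean U F h hU hF z s hs hz h0
  have hFc : ContinuousOn F (closedBall z s) := hF.F_diff.continuousOn.mono hz
  have hhc : ContinuousOn h (closedBall z s) := hF.h_diff.continuousOn.mono hz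
  have hhi : ∀ i, ContinuousOn (fun w => h w i) (closedBall z s) := fun i => (continuous_apply i).comp_continuousOn hhc
  have hIF : CircleIntegrable (fun w => Real.log ‖F w‖) z s :=
    ((hFc.norm.log fun w hw => (norm_pos_iff.mpr (hFne w hw)).ne').mono hsub).circleIntegrable hs.le
  have hIi : ∀ i : Fin (k + 1), CircleIntegrable (fun w => ‖h w i‖ ^ 2) z s := fun i => (((hhi i).norm.pow 2).mono hsub).circleIntegrable hs.le
  have hIW : CircleIntegrable (fun w => ∑ i, ‖h w i‖ ^ 2) z s := CircleIntegrable.fun_sum _ fun i _ => hIi i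
  have hICW : CircleIntegrable (fun w => C₀ • ∑ i, ‖h w i‖ ^ 2) z s := hIW.const_fun_smul
  have hIh : CircleIntegrable (fun w => ‖h w - h z‖ ^ 2) z s := (((hhc.sub continuousOn_const).norm.pow 2).mono hsub).circleIntegrable hs.le
  have hIp : CircleIntegrable (fun w => Real.log (pf p F w)) z s := by
    have h1 := (hI.fun_add hIF).fun_sub hICW
    have h2 : (fun w => Real.log (pf p F w) - Real.log ‖F w‖ + C₀ * ∑ i, ‖h w i‖ ^ 2 + Real.log ‖F w‖ - C₀ • ∑ i, ‖h w i‖ ^ 2) = fun w => Real.log (pf p F w) := by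
      funext w
      rw [smul_eq_mul]
      ring
    rwa [h2] at h1
  refine ⟨hIp, ?_⟩
  have hav : Real.circleAverage (fun w => Real.log (pf p F w) - Real.log ‖F w‖ + C₀ * ∑ i, ‖h w i‖ ^ 2) z s =
      Real.circleAverage (fun w => Real.log (pf p F w)) z s - Real.circleAverage (fun w => Real.log ‖F w‖) z s + C₀ * Real.circleAverage (fun w => ∑ i, ‖h w i‖ ^ 2) z s := by
    have h3 : (fun w => Real.log (pf p F w) - Real.log ‖F w‖ + C₀ * ∑ i, ‖h w i‖ ^ 2) =
        fun w => (Real.log (pf p F w) - Real.log ‖F w‖) + C₀ • ∑ i, ‖h w i‖ ^ 2 := by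
      funext w
      rw [smul_eq_mul]
    rw [h3, Real.circleAverage_fun_add (hIp.fun_sub hIF) hICW, Real.circleAverage_fun_sub hIp hIF, Real.circleAverage_fun_smul, smul_eq_mul]
  have hW : Real.circleAverage (fun w => ∑ i, ‖h w i‖ ^ 2) z s ≤ ∑ i, ‖h z i‖ ^ 2 + (k + 1) * Real.circleAverage (fun w => ‖h w - h z‖ ^ 2) z s := by
    rw [Real.circleAverage_fun_sum fun i _ => hIi i]
    have h4 : ∀ i : Fin (k + 1), Real.circleAverage (fun w => ‖h w i‖ ^ 2) z s ≤ ‖h z i‖ ^ 2 + Real.circleAverage (fun w => ‖h w - h z‖ ^ 2) z s := by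
      intro i
      have h5 : DifferentiableOn ℂ (fun w => h w i) (closedBall z s) := fun w hw =>
        (differentiableWithinAt_pi.1 ((hF.h_diff.mono hz) w hw)) i
      rw [cA_sq hs h5]
      have h6 : Real.circleAverage (fun w => ‖h w i - h z i‖ ^ 2) z s ≤ Real.circleAverage (fun w => ‖h w - h z‖ ^ 2) z s := by
        refine Real.circleAverage_mono ((((hhi i).sub continuousOn_const).norm.pow 2).mono hsub |>.circleIntegrable hs.le) hIh fun w _ => ?_
        refine pow_le_pow_left₀ (norm_nonneg _) ?_ 2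
        exact norm_le_pi_norm (h w - h z) i
      linarith
    refine (Finset.sum_le_sum fun i _ => h4 i).trans ?_
    rw [Finset.sum_add_distrib, Finset.sum_const, Finset.card_univ, Fintype.card_fin, nsmul_eq_mul]
    push_cast
    exact le_refl _
  rw [hav] at hm
  have h7 := mul_le_mul_of_nonneg_left hW hP.C_nonneg
  rw [TT]
  have h8 : C₀ * (∑ i, ‖h z i‖ ^ 2 + (k + 1) * Real.circleAverage (fun w => ‖h w - h z‖ ^ 2) z s) =
      C₀ * ∑ i, ‖h z i‖ ^ 2 + C₀ * (k + 1) * Real.circleAverage (fun w => ‖h w - h z‖ ^ 2) z s := by ring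
  rw [h8] at h7
  linarith

theorem ps_of_fin (hX : IsCone X) (hch : Charts (k + 2) X) (hu : TMap X Λ u) (hΛ : Lat Λ) (hP : FinM X Λ u D p m C₀) : ∃ C : ℝ, PS X Λ u D p m C := by
  obtain ⟨C₁, hC₁, h1⟩ := le_fs hX hch hP
  obtain ⟨C₂, hC₂, h2⟩ := du_bound (u := u) hX hu hΛ
  have hfs : ∀ x v : EN N, 0 ≤ fs x v := fun x v => Pool.Agent.H36.BP.fs_nonneg x v
  have hC₀ := hP.C_nonneg
  have hC₃ : 0 ≤ C₀ * (k + 1) := by positivity
  refine ⟨1 + C₁ + C₂ + C₀ * (k + 1), ?_⟩
  exact
    { m_pos := hP.m_pos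
      C_ge := by linarith
      nonneg := hP.nonneg
      hom := fun x hx v hv a => by
        have h3 := hP.hom x hx v hv a 0 1 one_ne_zero
        rwa [one_smul, one_smul, zero_smul, add_zero] at h3
      le_fs := fun x hx v hv => by
        refine (h1 x hx v hv).trans ?_
        exact mul_le_mul_of_nonneg_right (by linarith) (pow_nonneg (hfs x v) m)
      ge_fs := fun δ hδ => ge_fs hX hch hu hP hδ
      du := fun U F h hU hF z hz => by
        refine (h2 U F h hU hF z hz).trans ?_
        exact mul_le_mul_of_nonneg_right (by linarith) (hfs _ _)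
      cont := fun U F h hU hF => fin_cont hP hU hF
      jensen := fun U F h hU hF z s hs hz h0 => by
        obtain ⟨ha, hb⟩ := fin_jensen hX hP hU hF hs hz h0
        refine ⟨ha, hb.trans ?_⟩
        have h3 : 0 ≤ Real.circleAverage (fun w => ‖h w - h z‖ ^ 2) z s := avg_nonneg (fun w => by positivity) z s
        have : C₀ * (k + 1) * Real.circleAverage (fun w => ‖h w - h z‖ ^ 2) z s ≤
            (1 + C₁ + C₂ + C₀ * (k + 1)) * Real.circleAverage (fun w => ‖h w - h z‖ ^ 2) z s :=
          mul_le_mul_of_nonneg_right (by linarith) h3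
        linarith
      isol := hP.isol }

end Pool.Agent.G4.M
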