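import Pool.Agent.G4.F.Asm
import Pool.Agent.G4.F.ConJ
import Pool.Agent.G4.F.FewA
import Pool.Agent.G4.RE.Sml
import Pool.Agent.G4.E.Main
import Pool.Agent.G4.M.Met
import Pool.Agent.G4.M.ConM
import Pool.Agent.G4.M.Geo

/-!
# G4 M Main: the final theorem

`X` is a smooth projective variety of dimension `k + 2`, `u` a holomorphic map to a simple complex torus `ℂ^(k+1) / Λ`.  The set `B` is replaced by `B ∩ D` (for `k = 1`, `B` finite modulo `Λ`: by `(B + Λ) ∩ D`),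
closed and invariant, with few bad points (`exists_B`; by theta functions, `RE/Sml`).  The function `p` is the negatively curved metric (`fin_of`, `ps_of_fin`).
-/

set_option autoImplicit false

open Topology Filter Metric MvPolynomial

namespace Pool.Agent.G4

open Pool.Agent.H17 (PN VanishesAt HolomorphicInto puncturedDisc)
open Pool.Agent.H62.FC (Homog)
open Pool.Agent.H17LG.Variety (FunField IsLogGeneralType)
open Pool.Agent.H17EF (projVar coneE LE mem_coneE mk_mem_projVar)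
open Pool.Agent.H36.BP (EN fs wd Sub Curve)
open Pool.Agent.H14.PP (IsCone CurveAt Tan)
open Pool.Agent.H62.EF (MN pr)
open Pool.Agent.AD (Vd Chart Charts uV IsHolomorphicTorusMap)
open Pool.Agent.TG (TMap Lat Geo Gd VForm Fb TransAt)
open Pool.Agent.TGF (Cn Over IsAnalyticSubset)
open Pool.Agent.G3 (frm_of)
open Pool.Agent.G3.A (Ba Frm)
open Pool.Agent.G3.E (BL sub_bl bl_inv bl_fin)
open Pool.Agent.G3F (HasTopForms TorusHyperbolic)
open Pool.Agent.G4F (IsSimple IsSmall IsSingularLocus HasMetric HasJetForms)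

variable {N k : ℕ}

theorem Few.mono {B B' : Set (Vd (k + 1))} {a : Vd (k + 1)} (h : Few B' a) (hle : B ⊆ B') : Few B a := by
  intro ε hε
  obtain ⟨C, hC⟩ := h ε hε
  exact ⟨C, fun y R hR S hS => hC y R hR S fun z hz => ⟨(hS z hz).1, hle (hS z hz).2⟩⟩

theorem ba_inter {D B : Set (Vd (k + 1))} {a : Vd (k + 1)} : Ba D (B ∩ D) a ⊆ Ba D B a := by
  rintro q ⟨h1, h2⟩
  exact ⟨h1, h2.imp (fun h => h.1) id⟩

/-- the set `B` can be taken closed and invariant, in `D`, with few bad points -/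
theorem exists_B (Λ : AddSubgroup (Cn (k + 1))) [DiscreteTopology Λ] (hΛ : Lat Λ) (hs : Simp Λ) {D B : Set (Cn (k + 1))} (hD : IsAnalyticSubset D) (hDu : D ≠ Set.univ)
    (hDi : ∀ y ∈ D, ∀ l ∈ Λ, y + l ∈ D) (hco : ∀ y ∈ D, y ∉ B → ∃ κ : Vd (k + 1) → Vd (k + 1), Pool.Agent.TG.IsCoord D κ y)
    {X : Set (EN N)} {v : EN N → Vd (k + 1)} {Γ : AddSubgroup (Vd (k + 1))} {J r : ℕ} {W : Fin r → Vd (k + 1) →L[ℂ] ℂ} {α : Fin J → VForm X Λ v} (hF : Frm X Λ v D Γ W α)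
    (hx : ∃ y ∉ D, ∃ x ∈ X, v x - y ∈ Λ) (hB : IsSmall Λ D B) :
    ∃ B' : Set (Cn (k + 1)), IsClosed B' ∧ (∀ b ∈ B', ∀ l ∈ Λ, b + l ∈ B') ∧ B' ⊆ D ∧ (∀ y ∈ D, y ∉ B' → y ∉ B) ∧ ∀ a : Vd (k + 1), a ≠ 0 → Few (Ba D B' a) a := by
  rcases hB with ⟨rfl, hB⟩ | ⟨h2, hE⟩
  · have hfew : ∀ a : Vd (1 + 1), a ≠ 0 → Few (Ba D (BL B Λ) a) a := fun a ha =>
      few_one hΛ hs hD.isClosed hDi hD hDu (bl_fin hB) (fun y hy hyB => hco y hy fun h => hyB (sub_bl h)) ha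
    exact ⟨BL B Λ ∩ D, (bl_closed hB).inter hD.isClosed, fun b hb l hl => ⟨bl_inv b hb.1 l hl, hDi b hb.2 l hl⟩, Set.inter_subset_right, fun y hy hyB h => hyB ⟨sub_bl h, hy⟩,
      fun a ha => (hfew a ha).mono ba_inter⟩
  · obtain ⟨y₀, hy₀⟩ := (Set.ne_univ_iff_exists_notMem D).1 hDu
    have hL : LDi D := ldi_of hΛ hs (fun y _ => hD y) hDi hy₀
    exact ⟨B ∩ D, RE.Lq.closed hD.isClosed hE, fun b hb l hl => ⟨h2 b hb.1 l hl, hDi b hb.2 l hl⟩, Set.inter_subset_right, fun y hy hyB h => hyB ⟨h, hy⟩,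
      fun a ha => (RE.few_lq hΛ hs hF hx hD.isClosed hDi h2 hL hE hco ha).mono ba_inter⟩

theorem main {N k : ℕ} (P : Ideal (MvPolynomial (Fin (N + 1)) ℂ)) [P.IsPrime] (hP : Homog P)
    (hdim : ∃ z : Fin (k + 2) → FunField P, IsTranscendenceBasis ℂ z) (hsmooth : Pool.Agent.AD.NC.IsSmooth P (k + 2))
    (Λ : AddSubgroup (Cn (k + 1))) [DiscreteTopology Λ] (hspan : Submodule.span ℝ (Λ : Set (Cn (k + 1))) = ⊤) (hsimple : IsSimple Λ)
    (u : PN N → Cn (k + 1) ⧸ Λ) (hu : IsHolomorphicTorusMap (projVar P) Λ u) (D B : Set (Cn (k + 1))) (hD : IsSingularLocus (projVar P) Λ u D B)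
    (hR : ∃ (e : ℕ) (R : MvPolynomial (Fin (N + 1)) ℂ), R.IsHomogeneous e ∧ R ∉ P ∧
      ∀ x ∈ projVar P, (∃ y ∈ D, u x = (y : Cn (k + 1) ⧸ Λ)) → VanishesAt R x)
    (hE : HasTopForms (projVar P) Λ u D) (hM : HasMetric (projVar P) Λ u D) (hJ : HasJetForms (projVar P) Λ u D) :
    ∃ Q : MvPolynomial (Fin (N + 1)) ℂ, TorusHyperbolic P Λ u D Q := by
  have hs : Simp Λ := simp_of_span hsimple
  have hΛ : Lat Λ := Pool.Agent.TGF.gu_lat Λ hspan
  obtain ⟨Γ, r, J, W, α, hα⟩ := frm_of (D := D) hP hΛ hE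
  obtain ⟨B', hBc, hBi, hBD, hBB, hfew⟩ := exists_B Λ hΛ hs hD.analytic hD.proper hD.invariant
    (fun y hy hyB => by
      obtain ⟨κ, hκ, -⟩ := hD.crossing y hy hyB
      exact ⟨κ, hκ.holomorphic, hκ.point, (injective_iff_map_eq_zero _).2 hκ.immersion, hκ.mem_iff⟩) hα (H.exists_over hP hdim hR) hD.small
  obtain ⟨m, C₀, p, hfin⟩ := M.fin_of hP hM
  obtain ⟨C, hPS⟩ := M.ps_of_fin (Pool.Agent.AD.isCone_coneE hP) (Pool.Agent.TGF.gu_charts hP hdim hsmooth) (Pool.Agent.TGF.gu_tor hP hu) hΛ hfin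
  have G : Geo (coneE P) Λ (uV Λ u) D B' := M.geo_of_ps hP hdim hsmooth hspan hu hD.analytic hD.proper hD.invariant
    (fun a ha => ae_lines hΛ hBc hBi ((hfew a ha).mono fun q hq => ⟨hBD hq, Or.inl hq⟩)) hD.submersion (fun y hy hyB => hD.crossing y hy (hBB y hy hyB)) hPS
  obtain ⟨⟨T, hT⟩, hldi⟩ := E.end_main G hD.analytic hD.proper hBc hBi hs hfew hPS hα (jform_of hP hΛ hs hD.analytic hD.proper hD.invariant hJ)
  exact asm hP hdim hsmooth G hs hfew hR hα hPS hT hldi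

end Pool.Agent.G4
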