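import Pool.Agent.AD.F.Max
import Pool.Agent.H36.BP.CirB
import Pool.Agent.H36.BP.ExtE
import Pool.Agent.G4.M.AhlK
import Mathlib.MeasureTheory.Integral.CircleAverage

/-!
# G4 M Rem: removable singularities, from the mean value inequality

As `AD/F/Rem` (`removable`); the hypothesis on `R` is the mean value inequality `log R (z) + κ TT F z s ≤ average of log R` for small `s`; the comparison (ii) on the annulus by `sub_le_avg` (weak maximum principle,
`V exp (δ |z|²)` has no interior maximum).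
-/

set_option autoImplicit false

open Topology Filter Metric

namespace Pool.Agent.G4.M

open Pool.Agent.H36.BP (EN fs wd Sub Curve)
open Pool.Agent.AD.F (sub_le)
open Pool.Agent.G3 (TT)

variable {N : ℕ} {X : Set (EN N)}

/-- `exp (t (Re g + b log|z|))` is locally the absolute value of a holomorphic function -/
private theorem rem_sub_exp {g : ℂ → ℂ} (hg : DifferentiableOn ℂ g {0}ᶜ) (b t : ℝ) {z₀ : ℂ} (hz₀ : z₀ ≠ 0) :
    Sub (fun z => Real.exp (t * ((g z).re + b * Real.log ‖z‖))) z₀ 0 := by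
  have hga : AnalyticAt ℂ g z₀ := hg.analyticAt (isOpen_compl_singleton.mem_nhds hz₀)
  set k : ℂ → ℂ := fun z => Complex.exp ((t : ℂ) * (g z + (b : ℂ) * (Complex.log (z / z₀) + (Real.log ‖z₀‖ : ℂ)))) with hk
  have hlog : AnalyticAt ℂ (fun z : ℂ => Complex.log (z / z₀)) z₀ := by
    have h1 : AnalyticAt ℂ (fun z : ℂ => z / z₀) z₀ := by fun_prop
    refine AnalyticAt.clog h1 ?_
    simp [div_self hz₀]
  have hka : AnalyticAt ℂ k z₀ := by
    refine AnalyticAt.cexp ?_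
    exact analyticAt_const.mul (hga.add (analyticAt_const.mul (hlog.add analyticAt_const)))
  have hk0 : k z₀ ≠ 0 := Complex.exp_ne_zero _
  refine (Sub.of_holo hka hk0).congr ?_
  filter_upwards [isOpen_compl_singleton.mem_nhds hz₀] with z hz
  have hz' : z ≠ 0 := hz
  rw [hk]
  simp only
  rw [Complex.norm_exp]
  congr 1
  have h1 : (Complex.log (z / z₀)).re = Real.log ‖z‖ - Real.log ‖z₀‖ := by
    rw [Complex.log_re, norm_div, Real.log_div (norm_ne_zero_iff.mpr hz') (norm_ne_zero_iff.mpr hz₀)]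
  rw [Complex.re_ofReal_mul, Complex.add_re, Complex.re_ofReal_mul, Complex.add_re, h1, Complex.ofReal_re]
  ring

/-- the averages over two circles are equal -/
private theorem rem_avg {E : Type*} [NormedAddCommGroup E] [NormedSpace ℂ E] [CompleteSpace E] {f : ℂ → E} {r R : ℝ}
    (h0 : 0 < r) (hle : r ≤ R) (hd : ∀ z : ℂ, r ≤ ‖z‖ → ‖z‖ ≤ R → DifferentiableAt ℂ f z) :
    Real.circleAverage f 0 R = Real.circleAverage f 0 r := by
  rw [Real.circleAverage_eq_circleIntegral h0.ne', Real.circleAverage_eq_circleIntegral (h0.trans_le hle).ne']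
  congr 1
  refine Complex.circleIntegral_sub_center_inv_smul_eq_of_differentiable_on_annulus_off_countable h0 hle
    (s := ∅) Set.countable_empty ?_ ?_
  · intro z hz
    have h1 : ‖z‖ ≤ R := by simpa using hz.1
    have h2 : r ≤ ‖z‖ := by simpa using hz.2
    exact (hd z h2 h1).continuousAt.continuousWithinAt
  · intro z hz
    have h1 : ‖z‖ < R := by simpa using hz.1.1
    have h2 : r < ‖z‖ := by simpa using hz.1.2
    exact hd z h2.le h1.le

/-- the average is near a point if the values are -/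
private theorem rem_avg_le {E : Type*} [NormedAddCommGroup E] [NormedSpace ℝ E] [CompleteSpace E] {f : ℂ → E} {c : E} {R A : ℝ}
    (hR : 0 < R) (hf : ContinuousOn f (sphere 0 R)) (h : ∀ z : ℂ, ‖z‖ = R → ‖f z - c‖ ≤ A) :
    ‖Real.circleAverage f 0 R - c‖ ≤ A := by
  have hci : CircleIntegrable f 0 R := hf.circleIntegrable hR.le
  have hcc : CircleIntegrable (fun _ : ℂ => c) 0 R := circleIntegrable_const c 0 R
  have h1 : Real.circleAverage (fun z => f z - c) 0 R = Real.circleAverage f 0 R - c := by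
    rw [Real.circleAverage_fun_sub hci hcc, Real.circleAverage_const]
  rw [← h1, Real.circleAverage_def, norm_smul, norm_inv, Real.norm_of_nonneg (by positivity)]
  have h2 : ‖∫ θ in (0 : ℝ)..2 * Real.pi, (f (circleMap 0 R θ) - c)‖ ≤ A * |2 * Real.pi - 0| := by
    refine intervalIntegral.norm_integral_le_of_norm_le_const fun θ _ => h _ ?_
    rw [norm_circleMap_zero, abs_of_pos hR]
  rw [sub_zero, abs_of_pos (by positivity)] at h2
  rw [inv_mul_le_iff₀ (by positivity)]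
  linarith


/-- the average of `‖w‖ ^ 2` -/
theorem avg_norm_sq (z : ℂ) {s : ℝ} (hs : 0 < s) : Real.circleAverage (fun w : ℂ => ‖w‖ ^ 2) z s = ‖z‖ ^ 2 + s ^ 2 := by
  have h1 : ∀ w : ℂ, ‖w‖ ^ 2 = (2 * (z.re * w.re + z.im * w.im) - ‖z‖ ^ 2) + ‖w - z‖ ^ 2 := by
    intro w
    rw [Complex.sq_norm, Complex.sq_norm, Complex.sq_norm, Complex.normSq_apply, Complex.normSq_apply, Complex.normSq_apply]
    simp only [Complex.sub_re, Complex.sub_im]
    ring
  have h2 : Real.circleAverage (fun w : ℂ => ‖w‖ ^ 2) z s = Real.circleAverage (fun w : ℂ => 2 * ((starRingEnd ℂ) z * w).re - ‖z‖ ^ 2 + s ^ 2) z s := by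
    refine Real.circleAverage_congr_sphere fun w hw => ?_
    rw [abs_of_pos hs] at hw
    show ‖w‖ ^ 2 = 2 * ((starRingEnd ℂ) z * w).re - ‖z‖ ^ 2 + s ^ 2
    rw [h1 w, mem_sphere_iff_norm.1 hw]
    simp only [Complex.mul_re, Complex.conj_re, Complex.conj_im]
    ring
  have hd : DiffContOnCl ℂ (fun w : ℂ => 2 * ((starRingEnd ℂ) z * w)) (ball z |s|) := by
    have h3 : Differentiable ℂ (fun w : ℂ => 2 * ((starRingEnd ℂ) z * w)) := by fun_prop
    exact h3.diffContOnCl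
  have h3 : Real.circleAverage (fun w : ℂ => 2 * ((starRingEnd ℂ) z * w)) z s = 2 * ((starRingEnd ℂ) z * z) := hd.circleAverage
  have hci : CircleIntegrable (fun w : ℂ => 2 * ((starRingEnd ℂ) z * w)) z s := by
    refine ContinuousOn.circleIntegrable hs.le (Continuous.continuousOn ?_)
    fun_prop
  have h4 := Complex.reCLM.circleAverage_comp_comm hci
  rw [h3] at h4
  have hcr : CircleIntegrable (fun w : ℂ => (2 * ((starRingEnd ℂ) z * w)).re) z s := by
    refine ContinuousOn.circleIntegrable hs.le (Continuous.continuousOn ?_)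
    fun_prop
  have h5 : (fun w : ℂ => 2 * ((starRingEnd ℂ) z * w).re - ‖z‖ ^ 2 + s ^ 2) = fun w : ℂ => (2 * ((starRingEnd ℂ) z * w)).re + (-‖z‖ ^ 2 + s ^ 2) := by
    funext w
    have h6 : (2 * ((starRingEnd ℂ) z * w)).re = 2 * ((starRingEnd ℂ) z * w).re := by
      simp
    rw [h6]
    ring
  rw [h2, h5, Real.circleAverage_fun_add hcr (circleIntegrable_const _ _ _), Real.circleAverage_const]
  have h7 : Real.circleAverage (fun w : ℂ => (2 * ((starRingEnd ℂ) z * w)).re) z s = (2 * ((starRingEnd ℂ) z * z)).re := h4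
  rw [h7, Complex.conj_mul', Complex.sq_norm]
  have h8 : (2 * ((‖z‖ : ℂ)) ^ 2).re = 2 * Complex.normSq z := by
    rw [← Complex.sq_norm, ← Complex.ofReal_pow, Complex.re_mul_ofReal]
    simp
  rw [h8]
  ring

/-- weak maximum principle -/
theorem sub_le_avg {S U : Set ℂ} (hS : IsCompact S) (hU : IsOpen U) (hUS : U ⊆ S) {V : ℂ → ℝ} (hV : ContinuousOn V S)
    (hsub : ∀ z ∈ U, 0 < V z → ∀ c : ℝ, c < 0 → ∀ᶠ s in 𝓝[>] (0 : ℝ), Real.log (V z) + c * s ^ 2 ≤ Real.circleAverage (fun w => Real.log (V w)) z s)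
    {A : ℝ} (hA : 0 ≤ A) (hbd : ∀ z ∈ S \ U, V z ≤ A) : ∀ z ∈ S, V z ≤ A := by
  intro z₁ hz₁
  by_contra hlt
  push Not at hlt
  obtain ⟨R, hR⟩ := hS.isBounded.exists_norm_le
  obtain ⟨δ, hδ, hδ1⟩ : ∃ δ : ℝ, 0 < δ ∧ A * Real.exp (δ * R ^ 2) < V z₁ := by
    have h1 : Tendsto (fun δ : ℝ => A * Real.exp (δ * R ^ 2)) (𝓝[>] 0) (𝓝 (A * Real.exp (0 * R ^ 2))) := by
      apply tendsto_nhdsWithin_of_tendsto_nhds
      have hc : Continuous (fun δ : ℝ => A * Real.exp (δ * R ^ 2)) := by fun_prop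
      exact hc.tendsto 0
    rw [zero_mul, Real.exp_zero, mul_one] at h1
    obtain ⟨δ, h2, h3⟩ := ((h1.eventually_lt_const hlt).and self_mem_nhdsWithin).exists
    exact ⟨δ, h3, h2⟩
  obtain ⟨W, hW⟩ : ∃ W : ℂ → ℝ, W = fun z => V z * Real.exp (δ * ‖z‖ ^ 2) := ⟨_, rfl⟩
  have hWz : ∀ z, W z = V z * Real.exp (δ * ‖z‖ ^ 2) := fun z => by rw [hW]
  have hWc : ContinuousOn W S := by
    rw [hW]
    refine hV.mul ?_
    exact Continuous.continuousOn (by fun_prop)
  obtain ⟨z₀, hz₀, hmax⟩ := hS.exists_isMaxOn ⟨z₁, hz₁⟩ hWc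
  have h1 : V z₁ ≤ W z₀ := by
    have h2 : W z₁ ≤ W z₀ := hmax hz₁
    refine le_trans ?_ h2
    rw [hWz]
    exact le_mul_of_one_le_right (hA.trans hlt.le) (Real.one_le_exp (by positivity))
  have hz₀U : z₀ ∈ U := by
    by_contra h2
    have h3 := hbd z₀ ⟨hz₀, h2⟩
    have h4 : W z₀ ≤ A * Real.exp (δ * R ^ 2) := by
      rw [hWz]
      calc V z₀ * Real.exp (δ * ‖z₀‖ ^ 2) ≤ A * Real.exp (δ * ‖z₀‖ ^ 2) := mul_le_mul_of_nonneg_right h3 (Real.exp_pos _).le
        _ ≤ A * Real.exp (δ * R ^ 2) := by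
          refine mul_le_mul_of_nonneg_left (Real.exp_le_exp.2 ?_) hA
          have := hR z₀ hz₀
          gcongr
    linarith
  have hW0 : 0 < W z₀ := lt_of_lt_of_le (lt_of_le_of_lt hA hlt) h1
  have hV0 : 0 < V z₀ := by
    rw [hWz] at hW0
    exact pos_of_mul_pos_left hW0 (Real.exp_pos _).le
  have hVc : ContinuousAt V z₀ := (hV z₀ hz₀).continuousAt (mem_of_superset (hU.mem_nhds hz₀U) hUS)
  obtain ⟨ρ, hρ, hball⟩ := Metric.eventually_nhds_iff_ball.1 ((hVc.eventually_const_lt hV0).and (hU.mem_nhds hz₀U))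
  have hsm : ∀ᶠ s in 𝓝[>] (0 : ℝ), s < ρ := nhdsWithin_le_nhds (Iio_mem_nhds hρ)
  obtain ⟨s, ⟨hs1, hs2⟩, hs0⟩ := (((hsub z₀ hz₀U hV0 (-(δ / 2)) (by linarith)).and hsm).and self_mem_nhdsWithin).exists
  have hs0 : 0 < s := hs0
  have hsph : ∀ w ∈ sphere z₀ s, w ∈ ball z₀ ρ := fun w hw => by
    rw [mem_ball, mem_sphere.1 hw]
    exact hs2
  have hle : Real.circleAverage (fun w => Real.log (V w)) z₀ s ≤ Real.circleAverage (fun w : ℂ => Real.log (W z₀) - δ • ‖w‖ ^ 2) z₀ s := by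
    refine Real.circleAverage_mono ?_ ?_ fun w hw => ?_
    · refine ContinuousOn.circleIntegrable hs0.le (ContinuousOn.log ((hV.mono hUS).mono fun w hw => (hball w (hsph w hw)).2) fun w hw => ?_)
      exact (hball w (hsph w hw)).1.ne'
    · refine ContinuousOn.circleIntegrable hs0.le (Continuous.continuousOn ?_)
      fun_prop
    · rw [abs_of_pos hs0] at hw
      obtain ⟨h2, h3⟩ := hball w (hsph w hw)
      have h4 : W w ≤ W z₀ := hmax (hUS h3)
      have h5 : 0 < W w := by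
        rw [hWz]
        exact mul_pos h2 (Real.exp_pos _)
      have h6 := Real.log_le_log h5 h4
      rw [hWz w, Real.log_mul h2.ne' (Real.exp_pos _).ne', Real.log_exp] at h6
      show Real.log (V w) ≤ Real.log (W z₀) - δ * ‖w‖ ^ 2
      linarith
  have hav : Real.circleAverage (fun w : ℂ => Real.log (W z₀) - δ • ‖w‖ ^ 2) z₀ s = Real.log (W z₀) - δ * (‖z₀‖ ^ 2 + s ^ 2) := by
    have hcs : CircleIntegrable (fun w : ℂ => ‖w‖ ^ 2) z₀ s := ContinuousOn.circleIntegrable hs0.le (Continuous.continuousOn (by fun_prop))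
    rw [Real.circleAverage_fun_sub (circleIntegrable_const _ _ _) hcs.const_fun_smul, Real.circleAverage_const, Real.circleAverage_fun_smul, avg_norm_sq z₀ hs0, smul_eq_mul]
  rw [hav] at hle
  have h2 : Real.log (W z₀) = Real.log (V z₀) + δ * ‖z₀‖ ^ 2 := by
    rw [hWz, Real.log_mul hV0.ne' (Real.exp_pos _).ne', Real.log_exp]
  rw [h2] at hle
  have h3 : 0 < δ * s ^ 2 := by positivity
  linarith

/-- comparison on an annulus -/
private theorem rem_bounds {F : ℂ → EN N} {R : ℂ → ℝ} {κ r r' r₁ : ℝ} (hκ : 0 < κ) (hr0 : 0 < r) (hrr : r < r') (hr' : r' < r₁) (hr1 : r₁ ≤ 1)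
    (hF : DifferentiableOn ℂ F (ball 0 1 \ {0})) (hF0 : ∀ z ∈ ball (0 : ℂ) 1 \ {0}, F z ≠ 0) (hR : ContinuousOn R (ball 0 r₁ \ {0}))
    (h0 : ∀ z ∈ ball (0 : ℂ) r₁ \ {0}, 0 ≤ R z) (h1 : ∀ z ∈ ball (0 : ℂ) r₁ \ {0}, R z ≤ 1)
    (hs : ∀ z ∈ ball (0 : ℂ) r₁ \ {0}, 0 < R z → ∀ᶠ s in 𝓝[>] (0 : ℝ), Real.log (R z) + κ * TT F z s ≤ Real.circleAverage (fun w => Real.log (R w)) z s) :
    ∃ (g : ℂ → ℂ) (b : ℝ), DifferentiableOn ℂ g {0}ᶜ ∧ ∀ z : ℂ, r ≤ ‖z‖ → ‖z‖ ≤ r' →
      κ * Real.log ‖F z‖ ≤ 1 + ((g z).re + b * Real.log ‖z‖) ∧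
      R z * Real.exp ((g z).re + b * Real.log ‖z‖ - κ * Real.log ‖F z‖) ≤ Real.exp 1 := by
  have hopen : IsOpen (ball (0 : ℂ) 1 \ {0}) := isOpen_ball.sdiff isClosed_singleton
  obtain ⟨S, hS⟩ : ∃ S : Set ℂ, S = {z | r ≤ ‖z‖ ∧ ‖z‖ ≤ r'} := ⟨_, rfl⟩
  obtain ⟨U, hU⟩ : ∃ U : Set ℂ, U = {z | r < ‖z‖ ∧ ‖z‖ < r'} := ⟨_, rfl⟩
  have hSc : IsCompact S := by
    rw [hS]
    refine (isCompact_closedBall (0 : ℂ) r').of_isClosed_subset ?_ ?_
    · exact (isClosed_le continuous_const continuous_norm).inter (isClosed_le continuous_norm continuous_const)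
    · intro z hz
      simpa using hz.2
  have hUo : IsOpen U := by
    rw [hU]
    exact (isOpen_lt continuous_const continuous_norm).inter (isOpen_lt continuous_norm continuous_const)
  have hUS : U ⊆ S := by
    rw [hU, hS]
    exact fun z hz => ⟨hz.1.le, hz.2.le⟩
  have hSsub1 : S ⊆ ball (0 : ℂ) r₁ \ {0} := by
    rw [hS]
    intro z hz
    refine ⟨?_, ?_⟩
    · rw [mem_ball_zero_iff]
      exact lt_of_le_of_lt hz.2 hr'
    · rintro rfl
      have := hz.1
      rw [norm_zero] at this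
      linarith
  have hsub1 : ball (0 : ℂ) r₁ \ {0} ⊆ ball (0 : ℂ) 1 \ {0} := fun z hz => ⟨ball_subset_ball hr1 hz.1, hz.2⟩
  have hSsub : S ⊆ ball (0 : ℂ) 1 \ {0} := hSsub1.trans hsub1
  have hSsph : S \ U ⊆ sphere (0 : ℂ) r ∪ sphere (0 : ℂ) r' := by
    rw [hS, hU]
    intro z hz
    have h1 := hz.1
    have h2 : ¬ (r < ‖z‖ ∧ ‖z‖ < r') := hz.2
    rcases h1.1.lt_or_eq with h | h
    · right
      rw [mem_sphere_zero_iff_norm]
      by_contra hne
      exact h2 ⟨h, lt_of_le_of_ne h1.2 hne⟩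
    · left
      rw [mem_sphere_zero_iff_norm, h]
  have hsphS : sphere (0 : ℂ) r ∪ sphere (0 : ℂ) r' ⊆ S := by
    rw [hS]
    rintro z (hz | hz)
    · rw [mem_sphere_zero_iff_norm] at hz
      exact ⟨hz.ge, by rw [hz]; exact hrr.le⟩
    · rw [mem_sphere_zero_iff_norm] at hz
      exact ⟨by rw [hz]; exact hrr.le, hz.le⟩
  have hFn : ∀ z ∈ ball (0 : ℂ) 1 \ {0}, 0 < ‖F z‖ := fun z hz => norm_pos_iff.mpr (hF0 z hz)
  have hFc : ContinuousOn F S := hF.continuousOn.mono hSsub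
  have hFa : ∀ z ∈ ball (0 : ℂ) 1 \ {0}, AnalyticAt ℂ F z := fun z hz => hF.analyticAt (hopen.mem_nhds hz)
  obtain ⟨g, b, hg, hgb⟩ := Pool.Agent.H36.BP.annulus_approx hr0 hrr (fun z => κ * Real.log ‖F z‖)
    (by
      refine ContinuousOn.mul continuousOn_const (ContinuousOn.log (hFc.mono hsphS).norm ?_)
      intro z hz
      exact (hFn z (hSsub (hsphS hz))).ne') (ε := 1) one_pos
  obtain ⟨w, hw⟩ : ∃ w : ℂ → ℝ, w = fun z => (g z).re + b * Real.log ‖z‖ := ⟨_, rfl⟩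
  have hwz : ∀ z, w z = (g z).re + b * Real.log ‖z‖ := fun z => by rw [hw]
  have hwc : ContinuousOn w S := by
    have h1 : ContinuousOn g S := hg.continuousOn.mono fun z hz => (hSsub hz).2
    rw [hw]
    refine (Complex.continuous_re.comp_continuousOn h1).add (continuousOn_const.mul
      (ContinuousOn.log continuous_norm.continuousOn ?_))
    intro z hz
    exact norm_ne_zero_iff.mpr (hSsub hz).2
  have hlogF : ∀ (a : ℝ), ∀ z ∈ ball (0 : ℂ) 1 \ {0}, ‖F z‖ ^ a = Real.exp (a * Real.log ‖F z‖) := by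
    intro a z hz
    rw [Real.rpow_def_of_pos (hFn z hz), mul_comm]
  have hrc : ∀ a : ℝ, ContinuousOn (fun z => ‖F z‖ ^ a) S := by
    intro a
    refine ContinuousOn.rpow_const hFc.norm ?_
    intro z hz
    exact Or.inl (hFn z (hSsub hz)).ne'
  refine ⟨g, b, hg, ?_⟩
  -- (i)
  have hA : ∀ z ∈ S, ‖F z‖ ^ κ * Real.exp (-1 * ((g z).re + b * Real.log ‖z‖)) ≤ Real.exp 1 := by
    refine sub_le hSc hUo hUS ?_ ?_ (Real.exp_nonneg _) ?_
    · refine (hrc κ).mul (Real.continuous_exp.comp_continuousOn ?_)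
      have h2 : ContinuousOn (fun z => -1 * w z) S := continuousOn_const.mul hwc
      refine h2.congr fun z hz => ?_
      show _ = -1 * w z
      rw [hwz]
    · intro z hz _
      have hz' := hSsub (hUS hz)
      have h2 := Sub.norm_rpow (hFa z hz') (hF0 z hz') κ
      have h3 := rem_sub_exp hg b (-1) (z₀ := z) hz'.2
      refine (h2.mul h3).anti ?_
      rw [add_zero]
      positivity
    · intro z hz
      rw [hlogF κ z (hSsub hz.1), ← Real.exp_add, Real.exp_le_exp]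
      have := (abs_le.mp (hgb z (hSsph hz))).1
      linarith
  -- (ii)
  have hB : ∀ z ∈ S, R z * ‖F z‖ ^ (-κ) * Real.exp (1 * ((g z).re + b * Real.log ‖z‖)) ≤ Real.exp 1 := by
    refine sub_le_avg hSc hUo hUS ?_ ?_ (Real.exp_nonneg _) ?_
    · refine ((hR.mono hSsub1).mul (hrc (-κ))).mul (Real.continuous_exp.comp_continuousOn ?_)
      have h2 : ContinuousOn (fun z => 1 * w z) S := continuousOn_const.mul hwc
      refine h2.congr fun z hz => ?_
      show _ = 1 * w z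
      rw [hwz]
    · intro z hz hpos c hc
      have hz' := hSsub (hUS hz)
      have hRp : 0 < R z := by
        rcases (h0 z (hSsub1 (hUS hz))).lt_or_eq with h | h
        · exact h
        · rw [← h, zero_mul, zero_mul] at hpos
          exact absurd hpos (lt_irrefl _)
      have h3 := rem_sub_exp hg b 1 (z₀ := z) hz'.2
      have hUz : U ∈ 𝓝 z := hUo.mem_nhds hz
      have h3c : ∀ᶠ w in 𝓝 z, ContinuousAt (fun z => Real.exp (1 * ((g z).re + b * Real.log ‖z‖))) w := by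
        filter_upwards [hUz] with w' hw'
        have h5 : ContinuousAt w w' := (hwc w' (hUS hw')).continuousAt (mem_of_superset (hUo.mem_nhds hw') hUS)
        rw [hw] at h5
        exact (continuousAt_const.mul h5).rexp
      have h4 := avg_low h3 hc h3c
      have h5 := hs z (hSsub1 (hUS hz)) hRp
      have hRc : ContinuousAt R z := (hR z (hSsub1 (hUS hz))).continuousAt (mem_of_superset hUz (hUS.trans hSsub1))
      obtain ⟨ρ, hρ, hball⟩ := Metric.eventually_nhds_iff_ball.1 ((hRc.eventually_const_lt hRp).and hUz)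
      have hsm : ∀ᶠ s in 𝓝[>] (0 : ℝ), s < ρ := nhdsWithin_le_nhds (Iio_mem_nhds hρ)
      filter_upwards [h4, h5, hsm, self_mem_nhdsWithin] with s h4 h5 h6 hs0
      have hs0 : 0 < s := hs0
      have hsph : ∀ w ∈ sphere z s, 0 < R w ∧ w ∈ U := fun w hw => hball w (by
        rw [mem_ball, mem_sphere.1 hw]
        exact h6)
      have hIR : CircleIntegrable (fun w => Real.log (R w)) z s :=
        ContinuousOn.circleIntegrable hs0.le (ContinuousOn.log (hR.mono fun w hw => hSsub1 (hUS (hsph w hw).2)) fun w hw => (hsph w hw).1.ne')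
      have hIF : CircleIntegrable (fun w => Real.log ‖F w‖) z s :=
        ContinuousOn.circleIntegrable hs0.le (ContinuousOn.log (hFc.norm.mono fun w hw => hUS (hsph w hw).2) fun w hw => (hFn w (hSsub (hUS (hsph w hw).2))).ne')
      have hlog : ∀ w, 0 < R w → w ∈ U → Real.log (R w * ‖F w‖ ^ (-κ) * Real.exp (1 * ((g w).re + b * Real.log ‖w‖))) =
          Real.log (R w) - κ • Real.log ‖F w‖ + Real.log (Real.exp (1 * ((g w).re + b * Real.log ‖w‖))) := by
        intro w h7 h8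
        have h9 := hFn w (hSsub (hUS h8))
        rw [Real.log_mul (mul_pos h7 (Real.rpow_pos_of_pos h9 _)).ne' (Real.exp_pos _).ne', Real.log_mul h7.ne' (Real.rpow_pos_of_pos h9 _).ne', Real.log_rpow h9, smul_eq_mul]
        ring
      have hcongr : Real.circleAverage (fun w => Real.log (R w * ‖F w‖ ^ (-κ) * Real.exp (1 * ((g w).re + b * Real.log ‖w‖)))) z s =
          Real.circleAverage (fun w => Real.log (R w)) z s - κ * Real.circleAverage (fun w => Real.log ‖F w‖) z s +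
            Real.circleAverage (fun w => Real.log (Real.exp (1 * ((g w).re + b * Real.log ‖w‖)))) z s := by
        have h7 : Real.circleAverage (fun w => Real.log (R w * ‖F w‖ ^ (-κ) * Real.exp (1 * ((g w).re + b * Real.log ‖w‖)))) z s =
            Real.circleAverage (fun w => Real.log (R w) - κ • Real.log ‖F w‖ + Real.log (Real.exp (1 * ((g w).re + b * Real.log ‖w‖)))) z s := by
          refine Real.circleAverage_congr_sphere fun w hw => ?_
          rw [abs_of_pos hs0] at hw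
          exact hlog w (hsph w hw).1 (hsph w hw).2
        rw [h7, Real.circleAverage_fun_add (hIR.fun_sub hIF.const_fun_smul) h4.1, Real.circleAverage_fun_sub hIR hIF.const_fun_smul, Real.circleAverage_fun_smul, smul_eq_mul]
      rw [hcongr, hlog z hRp hz, smul_eq_mul]
      have h8 := h4.2
      rw [TT, mul_sub] at h5
      linarith
    · intro z hz
      have h2 := (abs_le.mp (hgb z (hSsph hz))).2
      have h3 : R z ≤ 1 := h1 z (hSsub1 hz.1)
      rw [hlogF (-κ) z (hSsub hz.1), mul_assoc, ← Real.exp_add]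
      calc R z * Real.exp (-κ * Real.log ‖F z‖ + 1 * ((g z).re + b * Real.log ‖z‖))
          ≤ 1 * Real.exp (-κ * Real.log ‖F z‖ + 1 * ((g z).re + b * Real.log ‖z‖)) :=
            mul_le_mul_of_nonneg_right h3 (Real.exp_nonneg _)
        _ ≤ Real.exp 1 := by
            rw [one_mul, Real.exp_le_exp]
            linarith
  intro z hz1 hz2
  have hzS : z ∈ S := by
    rw [hS]
    exact ⟨hz1, hz2⟩
  have hz' := hSsub hzS
  constructor
  · have h2 := hA z hzS
    rw [hlogF κ z hz', ← Real.exp_add, Real.exp_le_exp] at h2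
    linarith
  · have h2 := hB z hzS
    rw [hlogF (-κ) z hz', mul_assoc, ← Real.exp_add] at h2
    have h3 : (g z).re + b * Real.log ‖z‖ - κ * Real.log ‖F z‖ =
        -κ * Real.log ‖F z‖ + 1 * ((g z).re + b * Real.log ‖z‖) := by ring
    rw [h3]
    exact h2

/-- **(P4)** -/
theorem removable {F : ℂ → EN N} {R : ℂ → ℝ} {κ r₁ s₁ s₂ : ℝ} (hκ : 0 < κ) (hs₁ : 0 < s₁) (hs₂ : s₁ < s₂) (hr₁ : s₂ < r₁) (hr : r₁ ≤ 1)
    (hF : DifferentiableOn ℂ F (ball 0 1 \ {0})) (hF0 : ∀ z ∈ ball (0 : ℂ) 1 \ {0}, F z ≠ 0) (hR : ContinuousOn R (ball 0 r₁ \ {0}))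
    (h0 : ∀ z ∈ ball (0 : ℂ) r₁ \ {0}, 0 ≤ R z) (h1 : ∀ z ∈ ball (0 : ℂ) r₁ \ {0}, R z ≤ 1)
    (hs : ∀ z ∈ ball (0 : ℂ) r₁ \ {0}, 0 < R z → ∀ᶠ s in 𝓝[>] (0 : ℝ), Real.log (R z) + κ * TT F z s ≤ Real.circleAverage (fun w => Real.log (R w)) z s)
    (hpos : ∀ z : ℂ, ‖z‖ = s₁ ∨ ‖z‖ = s₂ → 0 < R z) :
    ∃ Q : ℂ → EN N, AnalyticAt ℂ Q 0 ∧ Q 0 ≠ 0 ∧ ∀ᶠ z in 𝓝[≠] (0 : ℂ), ∃ k : ℂ, k ≠ 0 ∧ Q z = k • F z := by
  obtain ⟨r', hr'1, hr'2⟩ : ∃ r' : ℝ, s₂ < r' ∧ r' < r₁ := exists_between hr₁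
  have hs20 : 0 < s₂ := hs₁.trans hs₂
  have hr'0 : 0 < r' := hs20.trans hr'1
  have hr'3 : r' < 1 := hr'2.trans_le hr
  have hFn : ∀ z : ℂ, 0 < ‖z‖ → ‖z‖ < 1 → 0 < ‖F z‖ := by
    intro z hz hz'
    refine norm_pos_iff.2 (hF0 z ⟨?_, ?_⟩)
    · rw [mem_ball_zero_iff]
      exact hz'
    · exact norm_pos_iff.1 hz
  -- the constant on the two circles
  obtain ⟨K, hK⟩ : ∃ K : Set ℂ, K = sphere (0 : ℂ) s₁ ∪ sphere (0 : ℂ) s₂ := ⟨_, rfl⟩
  have hKc : IsCompact K := by
    rw [hK]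
    exact (isCompact_sphere _ _).union (isCompact_sphere _ _)
  have hKm : ∀ z : ℂ, z ∈ K ↔ ‖z‖ = s₁ ∨ ‖z‖ = s₂ := by
    intro z
    rw [hK]
    simp
  have hKs : K ⊆ ball (0 : ℂ) r₁ \ {0} := by
    intro z hz
    rcases (hKm z).1 hz with h | h
    · refine ⟨?_, ?_⟩
      · rw [mem_ball_zero_iff, h]
        linarith
      · exact norm_pos_iff.1 (by rw [h]; exact hs₁)
    · refine ⟨?_, ?_⟩
      · rw [mem_ball_zero_iff, h]
        exact hr₁
      · exact norm_pos_iff.1 (by rw [h]; exact hs20)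
  have hKs' : K ⊆ ball (0 : ℂ) 1 \ {0} := fun z hz => ⟨ball_subset_ball hr (hKs hz).1, (hKs hz).2⟩
  obtain ⟨A, hA⟩ : ∃ A : ℝ, ∀ z ∈ K, |κ * Real.log ‖F z‖| + 1 + |Real.log (R z)| ≤ A := by
    have hc : ContinuousOn (fun z => |κ * Real.log ‖F z‖| + 1 + |Real.log (R z)|) K := by
      refine ContinuousOn.add (ContinuousOn.add (ContinuousOn.abs (ContinuousOn.mul continuousOn_const
        (ContinuousOn.log (hF.continuousOn.mono hKs').norm ?_))) continuousOn_const)
        (ContinuousOn.abs (ContinuousOn.log (hR.mono hKs) ?_))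
      · intro z hz
        exact (norm_pos_iff.2 (hF0 z (hKs' hz))).ne'
      · intro z hz
        exact (hpos z ((hKm z).1 hz)).ne'
    obtain ⟨A, hA⟩ := (hKc.image_of_continuousOn hc).bddAbove
    exact ⟨A, fun z hz => hA ⟨z, hz, rfl⟩⟩
  have hlog : 0 < Real.log s₂ - Real.log s₁ := sub_pos.2 (Real.log_lt_log hs₁ hs₂)
  obtain ⟨B, hB⟩ : ∃ B : ℝ, B = 2 * A / (Real.log s₂ - Real.log s₁) := ⟨_, rfl⟩
  obtain ⟨m, hm⟩ := exists_nat_ge (B / κ)
  have hls₁ : Real.log s₁ < 0 := Real.log_neg hs₁ (by linarith)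
  have hz₁ : ‖(s₁ : ℂ)‖ = s₁ := by rw [Complex.norm_real, Real.norm_of_nonneg hs₁.le]
  -- the bound of `b`
  have hkey : ∀ r : ℝ, 0 < r → r < s₁ → ∃ (g : ℂ → ℂ) (b : ℝ), DifferentiableOn ℂ g {0}ᶜ ∧ |b| ≤ B ∧ ∀ z : ℂ, r ≤ ‖z‖ → ‖z‖ ≤ r' →
      κ * Real.log ‖F z‖ ≤ 1 + ((g z).re + b * Real.log ‖z‖) ∧
      R z * Real.exp ((g z).re + b * Real.log ‖z‖ - κ * Real.log ‖F z‖) ≤ Real.exp 1 := by
    intro r hr0 hrs
    obtain ⟨g, b, hg, hgb⟩ := rem_bounds hκ hr0 (hrs.trans (hs₂.trans hr'1)) hr'2 hr hF hF0 hR h0 h1 hs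
    refine ⟨g, b, hg, ?_, hgb⟩
    have hω : ∀ z ∈ K, |(g z).re + b * Real.log ‖z‖| ≤ A := by
      intro z hz
      have hzn : r ≤ ‖z‖ ∧ ‖z‖ ≤ r' := by
        rcases (hKm z).1 hz with h | h
        · rw [h]
          exact ⟨hrs.le, by linarith⟩
        · rw [h]
          exact ⟨by linarith, hr'1.le⟩
      obtain ⟨h2, h3⟩ := hgb z hzn.1 hzn.2
      have h4 := hA z hz
      have hRp := hpos z ((hKm z).1 hz)
      have h5 : Real.log (R z) + ((g z).re + b * Real.log ‖z‖ - κ * Real.log ‖F z‖) ≤ 1 := by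
        rw [← Real.exp_le_exp, Real.exp_add, Real.exp_log hRp]
        exact h3
      have h6 := neg_abs_le (κ * Real.log ‖F z‖)
      have h7 := le_abs_self (κ * Real.log ‖F z‖)
      have h8 := neg_abs_le (Real.log (R z))
      have h9 := abs_nonneg (Real.log (R z))
      rw [abs_le]
      constructor <;> linarith
    have hgd : ∀ z : ℂ, z ≠ 0 → DifferentiableAt ℂ g z := fun z hz => (hg z hz).differentiableAt (isOpen_compl_singleton.mem_nhds hz)
    have hav := rem_avg (f := g) hs₁ hs₂.le (fun z hz _ => hgd z (norm_pos_iff.1 (hs₁.trans_le hz)))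
    have hre : ∀ s : ℝ, 0 < s → Real.circleAverage (fun z => (g z).re) 0 s = (Real.circleAverage g 0 s).re := by
      intro s hs0
      have hgc : ContinuousOn g (sphere 0 s) := by
        intro z hz
        refine (hgd z ?_).continuousAt.continuousWithinAt
        rw [mem_sphere_zero_iff_norm] at hz
        exact norm_pos_iff.1 (by rw [hz]; exact hs0)
      exact Complex.reCLM.circleAverage_comp_comm (hgc.circleIntegrable hs0.le)
    have hmean : ∀ s : ℝ, 0 < s → (∀ z : ℂ, ‖z‖ = s → z ∈ K) → |(Real.circleAverage g 0 s).re + b * Real.log s| ≤ A := by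
      intro s hs0 hsK
      have hgc : ContinuousOn (fun z => (g z).re) (sphere 0 s) := by
        intro z hz
        refine (Complex.continuous_re.continuousAt.comp (hgd z ?_).continuousAt).continuousWithinAt
        rw [mem_sphere_zero_iff_norm] at hz
        exact norm_pos_iff.1 (by rw [hz]; exact hs0)
      have h2 := rem_avg_le (c := -(b * Real.log s)) (A := A) hs0 hgc (fun z hz => by
        have h3 := hω z (hsK z hz)
        rw [hz] at h3
        rw [sub_neg_eq_add, Real.norm_eq_abs]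
        exact h3)
      rw [hre s hs0, sub_neg_eq_add, Real.norm_eq_abs] at h2
      exact h2
    have h2 := hmean s₁ hs₁ (fun z hz => (hKm z).2 (Or.inl hz))
    have h3 := hmean s₂ hs20 (fun z hz => (hKm z).2 (Or.inr hz))
    rw [hav] at h3
    rw [hB, le_div_iff₀ hlog]
    have h4 : |b| * (Real.log s₂ - Real.log s₁) = |b * Real.log s₂ - b * Real.log s₁| := by
      rw [← mul_sub, abs_mul, abs_of_pos hlog]
    rw [h4]
    rw [abs_le] at h2 h3 ⊢
    constructor <;> linarith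
  -- the norm of the lift
  have hnorm : ∀ (g : ℂ → ℂ) (z : ℂ), 0 < ‖z‖ → 0 < ‖F z‖ → ‖(z ^ m * Complex.exp (-(g z / κ))) • F z‖ =
      Real.exp ((m : ℝ) * Real.log ‖z‖ - (g z).re / κ + Real.log ‖F z‖) := by
    intro g z hz hFz
    rw [norm_smul, norm_mul, norm_pow, Complex.norm_exp, Real.exp_add, Real.exp_sub, Real.exp_log hFz]
    have h1 : (-(g z / (κ : ℂ))).re = -((g z).re / κ) := by
      rw [Complex.neg_re, Complex.div_ofReal_re]
    rw [h1, Real.exp_neg]
    have h2 : Real.exp ((m : ℝ) * Real.log ‖z‖) = ‖z‖ ^ m := by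
      rw [mul_comm, Real.exp_mul, Real.exp_log hz, Real.rpow_natCast]
    rw [h2]
    field_simp
  refine Pool.Agent.H36.BP.puncture_limit hF hF0 (r₁ := r') (z₁ := (s₁ : ℂ)) (A := Real.exp (1 / κ))
    (c := Real.exp (((m : ℝ) + B / κ) * Real.log s₁ + (Real.log (R s₁) - 1) / κ)) (Real.exp_pos _) (by rw [hz₁]; exact hs₁)
    (by rw [hz₁]; linarith) hr'3 ?_
  intro r hr0 hrs
  rw [hz₁] at hrs
  obtain ⟨g, b, hg, hbB, hgb⟩ := hkey r hr0 hrs
  refine ⟨fun z => z ^ m * Complex.exp (-(g z / κ)), ?_, ?_, ?_⟩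
  · intro z hz
    have h2 : DifferentiableAt ℂ g z := (hg z hz).differentiableAt (isOpen_compl_singleton.mem_nhds hz)
    exact ((differentiableAt_id.pow m).mul ((h2.div_const _).neg.cexp)).differentiableWithinAt
  · intro z hz hz'
    have hz0 : 0 < ‖z‖ := hr0.trans_le hz
    have hFz := hFn z hz0 (hz'.trans_lt hr'3)
    show ‖(z ^ m * Complex.exp (-(g z / κ))) • F z‖ ≤ _
    rw [hnorm g z hz0 hFz]
    refine Real.exp_le_exp.2 ?_
    have h2 := (hgb z hz hz').1
    have h3 : Real.log ‖z‖ ≤ 0 := Real.log_nonpos hz0.le (hz'.trans hr'3.le)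
    have h4 : Real.log ‖F z‖ ≤ (1 + ((g z).re + b * Real.log ‖z‖)) / κ := by
      rw [le_div_iff₀ hκ, mul_comm]
      exact h2
    have h5 : (1 + ((g z).re + b * Real.log ‖z‖)) / κ = 1 / κ + (g z).re / κ + b / κ * Real.log ‖z‖ := by
      field_simp
      ring
    have h6 : 0 ≤ (m : ℝ) + b / κ := by
      have h7 : -B ≤ b := (abs_le.1 hbB).1
      have h8 : -B / κ ≤ b / κ := div_le_div_of_nonneg_right h7 hκ.le
      have h9 : -B / κ = -(B / κ) := neg_div _ _
      linarith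
    have h7 := mul_nonpos_of_nonneg_of_nonpos h6 h3
    rw [h5] at h4
    linarith
  · have hFz := hFn (s₁ : ℂ) (by rw [hz₁]; exact hs₁) (by rw [hz₁]; linarith)
    show _ ≤ ‖((s₁ : ℂ) ^ m * Complex.exp (-(g s₁ / κ))) • F s₁‖
    rw [hnorm g (s₁ : ℂ) (by rw [hz₁]; exact hs₁) hFz]
    refine Real.exp_le_exp.2 ?_
    rw [hz₁]
    have hRp : 0 < R (s₁ : ℂ) := hpos _ (Or.inl hz₁)
    have h2 := (hgb (s₁ : ℂ) (by rw [hz₁]; exact hrs.le) (by rw [hz₁]; linarith)).2
    rw [hz₁] at h2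
    have h3 : Real.log (R (s₁ : ℂ)) + ((g (s₁ : ℂ)).re + b * Real.log s₁ - κ * Real.log ‖F (s₁ : ℂ)‖) ≤ 1 := by
      rw [← Real.exp_le_exp, Real.exp_add, Real.exp_log hRp]
      exact h2
    have h4 : ((g (s₁ : ℂ)).re + b * Real.log s₁ + Real.log (R (s₁ : ℂ)) - 1) / κ ≤ Real.log ‖F (s₁ : ℂ)‖ := by
      rw [div_le_iff₀ hκ]
      linarith
    have h5 : ((g (s₁ : ℂ)).re + b * Real.log s₁ + Real.log (R (s₁ : ℂ)) - 1) / κ =
        (g (s₁ : ℂ)).re / κ + b / κ * Real.log s₁ + (Real.log (R (s₁ : ℂ)) - 1) / κ := by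
      field_simp
      ring
    have h6 : B / κ * Real.log s₁ ≤ b / κ * Real.log s₁ := by
      refine mul_le_mul_of_nonpos_right ?_ hls₁.le
      exact div_le_div_of_nonneg_right (abs_le.1 hbB).2 hκ.le
    rw [h5] at h4
    linarith

end Pool.Agent.G4.M
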